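import Mathlib

/-!
A simple, cyclically 5-edge-connected cubic graph on 18 vertices for which every embedding in the
orientable surface of minimum genus has a region whose perimeter traverses some edge twice.
-/

namespace Pool.Agent.Results.MP_f8ee93_co.CyclicFive

open SimpleGraph

/-- A cellular embedding of a connected graph `G` in a closed oriented surface, given by its
rotation system: `next` sends each dart (directed edge) to the dart that follows it in the cyclic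
order, around their common first endpoint, in which the darts leave this endpoint. -/
structure CellularEmbedding {V : Type} (G : SimpleGraph V) where
  next : Equiv.Perm G.Dart
  fst_next : ∀ d : G.Dart, (next d).fst = d.fst
  cyclic : ∀ d e : G.Dart, d.fst = e.fst → next.SameCycle d e

/-- Reversal of darts. -/
def revPerm {V : Type} (G : SimpleGraph V) : Equiv.Perm G.Dart where
  toFun d := d.symm
  invFun d := d.symm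
  left_inv d := d.symm_symm
  right_inv d := d.symm_symm

namespace CellularEmbedding

variable {V : Type} {G : SimpleGraph V}

/-- Walking along the boundary of a region: after traversing the dart `d`, continue with the dart
that follows the reversal of `d` around the vertex just reached. The cycles of this permutation
of the darts are the perimeters of the regions. -/
def perimeter (ρ : CellularEmbedding G) : Equiv.Perm G.Dart :=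
  (revPerm G).trans ρ.next

/-- The number of regions. -/
noncomputable def numRegions (ρ : CellularEmbedding G) : ℕ :=
  Nat.card (Quotient (Equiv.Perm.SameCycle.setoid ρ.perimeter))

/-- The surface carrying the embedding has genus `g`: Euler's formula
`|V| - |E| + (number of regions) = 2 - 2 g`. -/
def InSurface (ρ : CellularEmbedding G) (g : ℕ) : Prop :=
  Nat.card V + ρ.numRegions + 2 * g = Nat.card G.edgeSet + 2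

end CellularEmbedding

/-- The genus of a connected graph: the least `g` such that it embeds in the closed orientable
surface of genus `g`. -/
noncomputable def genus {V : Type} (G : SimpleGraph V) : ℕ :=
  sInf {g : ℕ | ∃ ρ : CellularEmbedding G, ρ.InSurface g}

/-- `G` is cyclically `k`-edge-connected: at least `k` edges join `S` to its complement whenever
`S` is a set of vertices such that both `S` and its complement contain the vertices of a cycle. -/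
def CyclicallyEdgeConnected {V : Type} (G : SimpleGraph V) (k : ℕ) : Prop :=
  ∀ S : Set V,
    (∃ (v : V) (c : G.Walk v v), c.IsCycle ∧ ∀ x ∈ c.support, x ∈ S) →
    (∃ (v : V) (c : G.Walk v v), c.IsCycle ∧ ∀ x ∈ c.support, x ∉ S) →
    k ≤ {e : Sym2 V | ∃ x y, x ∈ S ∧ y ∉ S ∧ G.Adj x y ∧ e = s(x, y)}.ncard

/-! ### The graph -/

/-- Neighbours. -/
def nbr (u : Fin 18) (j : Fin 3) : Fin 18 :=
  (![![1, 2, 3], ![0, 4, 5], ![0, 6, 7], ![0, 8, 9], ![1, 6, 10], ![1, 7, 11], ![2, 4, 12],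
    ![2, 5, 13], ![3, 14, 15], ![3, 16, 17], ![4, 11, 14], ![5, 10, 15], ![6, 13, 16],
    ![7, 12, 17], ![8, 10, 16], ![8, 11, 17], ![9, 12, 14], ![9, 13, 15]] : Fin 18 → Fin 3 → Fin 18) u j

lemma nbr_symm : ∀ u v : Fin 18, (∃ j, nbr u j = v) → ∃ j, nbr v j = u := by decide +kernel

lemma nbr_irrefl : ∀ u : Fin 18, ¬ ∃ j, nbr u j = u := by decide +kernel

lemma nbr_inj : ∀ (u : Fin 18) (i j : Fin 3), nbr u i = nbr u j → i = j := by decide +kernel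

/-- The graph. -/
def Gr : SimpleGraph (Fin 18) where
  Adj u v := ∃ j, nbr u j = v
  symm := ⟨fun u v h => nbr_symm u v h⟩
  loopless := ⟨fun u h => nbr_irrefl u h⟩

lemma adj_nbr (u : Fin 18) (j : Fin 3) : Gr.Adj u (nbr u j) := ⟨j, rfl⟩

/-- The dart from `u` to its `j`-th neighbour. -/
def mk (p : Fin 18 × Fin 3) : Gr.Dart := ⟨(p.1, nbr p.1 p.2), adj_nbr p.1 p.2⟩

lemma mk_inj : Function.Injective mk := by
  rintro ⟨u, i⟩ ⟨v, j⟩ h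
  have h1 : u = v := congrArg (fun d : Gr.Dart => d.fst) h
  subst h1
  have h2 : nbr u i = nbr u j := congrArg (fun d : Gr.Dart => d.snd) h
  rw [nbr_inj u i j h2]

lemma mk_surj : Function.Surjective mk := by
  rintro ⟨⟨u, v⟩, ⟨j, hj⟩⟩
  refine ⟨(u, j), ?_⟩
  apply SimpleGraph.Dart.ext
  show (u, nbr u j) = (u, v)
  rw [hj]

noncomputable def eqv : Fin 18 × Fin 3 ≃ Gr.Dart := Equiv.ofBijective mk ⟨mk_inj, mk_surj⟩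

lemma eqv_apply (p : Fin 18 × Fin 3) : eqv p = mk p := rfl

/-! ### Numbers for darts -/

/-- Table of the reversal. -/
def ALC : Nat := 25443810937978745031242073402148121054932207799954854624057701896837445093023883536577326972178819

def al (d : Nat) : Nat := ALC / 2 ^ (6 * d) % 64

def enc (p : Fin 18 × Fin 3) : Nat := 3 * p.1.val + p.2.val

lemma enc_lt (p : Fin 18 × Fin 3) : enc p < 54 := by
  have := p.1.isLt; have := p.2.isLt; unfold enc; omega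

lemma enc_inj : Function.Injective enc := by
  rintro ⟨u, i⟩ ⟨v, j⟩ h
  have := i.isLt; have := j.isLt
  simp only [enc] at h
  have h1 : u.val = v.val := by omega
  have h2 : i.val = j.val := by omega
  rw [Prod.mk.injEq]
  exact ⟨Fin.ext h1, Fin.ext h2⟩

/-- reversal on pairs -/
def rv (p : Fin 18 × Fin 3) : Fin 18 × Fin 3 :=
  (nbr p.1 p.2, ⟨al (enc p) % 3, Nat.mod_lt _ (by norm_num)⟩)

lemma rv_spec : ∀ (u : Fin 18) (j : Fin 3), nbr (rv (u, j)).1 (rv (u, j)).2 = u ∧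
    al (enc (u, j)) = enc (rv (u, j)) := by decide +kernel

lemma mk_rv (p : Fin 18 × Fin 3) : mk (rv p) = (mk p).symm := by
  apply SimpleGraph.Dart.ext
  show ((rv p).1, nbr (rv p).1 (rv p).2) = (nbr p.1 p.2, p.1)
  rw [(rv_spec p.1 p.2).1]
  rfl

lemma al_enc (p : Fin 18 × Fin 3) : al (enc p) = enc (rv p) := (rv_spec p.1 p.2).2

/-- one step along a region, for the rotations given by `f` -/
def stp (f : Nat → Nat) (d : Nat) : Nat :=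
  3 * (al d / 3) + (al d % 3 + 1 + f (al d / 3) % 2) % 3

/-- the possible conclusions of the search -/
def Good (f : Nat → Nat) : Prop :=
  (∃ d, d < 54 ∧ ∃ i, (stp f)^[i] d = al d) ∨
  (∃ reps : List Nat, reps.length ≤ 8 ∧ (∀ r ∈ reps, r < 54) ∧
    ∀ d, d < 54 → ∃ r ∈ reps, ∃ i, (stp f)^[i] r = d)

/-- bit `v` of `b` -/
def bt (b v : Nat) : Nat := b / 2 ^ v % 2

/-- `f` extends the partial assignment with domain mask `m` and values `b` -/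
def Ext (f : Nat → Nat) (m b : Nat) : Prop := ∀ v, bt m v = 1 → f v % 2 = bt b v

def hit (m b target : Nat) : Nat → Nat → Bool
  | 0, _ => false
  | k + 1, c =>
    if bt m (al c / 3) = 0 then false
    else if 3 * (al c / 3) + (al c % 3 + 1 + bt b (al c / 3)) % 3 = target then true
    else hit m b target k (3 * (al c / 3) + (al c % 3 + 1 + bt b (al c / 3)) % 3)

lemma bt_cases (b v : Nat) : bt b v = 0 ∨ bt b v = 1 := by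
  unfold bt; omega

lemma stp_eq {f : Nat → Nat} {m b : Nat} (h : Ext f m b) (c : Nat) (hc : bt m (al c / 3) ≠ 0) :
    stp f c = 3 * (al c / 3) + (al c % 3 + 1 + bt b (al c / 3)) % 3 := by
  have h1 : bt m (al c / 3) = 1 := by
    rcases bt_cases m (al c / 3) with h0 | h0
    · exact absurd h0 hc
    · exact h0
  unfold stp
  rw [h _ h1]

lemma hit_sound {f : Nat → Nat} {m b : Nat} (h : Ext f m b) (target : Nat) :
    ∀ (k c : Nat), hit m b target k c = true → ∃ i, (stp f)^[i] c = target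
  | 0, c, hh => by simp [hit] at hh
  | k + 1, c, hh => by
    rw [hit] at hh
    split_ifs at hh with h1 h2
    · refine ⟨1, ?_⟩
      rw [Function.iterate_one, stp_eq h c h1, h2]
    · obtain ⟨i, hi⟩ := hit_sound h target k _ hh
      refine ⟨i + 1, ?_⟩
      rw [Function.iterate_succ_apply, stp_eq h c h1]
      exact hi

/-- collect the darts met in `k` steps from `c` -/
def trc (b : Nat) : Nat → Nat → Nat → Nat
  | 0, _, s => s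
  | k + 1, c, s => trc b k (3 * (al c / 3) + (al c % 3 + 1 + bt b (al c / 3)) % 3) (s ||| 2 ^ c)

def trcs (b : Nat) : List (Nat × Nat) → Nat → Nat
  | [], s => s
  | (r, l) :: t, s => trcs b t (trc b l r s)

def fullm : Nat := 2 ^ 18 - 1

lemma al_lt (c : Nat) : al c / 3 < 22 := by unfold al; omega

lemma al_small : ∀ c, c < 54 → al c < 54 := by decide +kernel

lemma stp_lt (f : Nat → Nat) (c : Nat) (hc : c < 54) : stp f c < 54 := by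
  have := al_small c hc
  unfold stp
  omega

lemma stp_full {f : Nat → Nat} {b : Nat} (h : Ext f fullm b) (c : Nat) (hc : c < 54) :
    stp f c = 3 * (al c / 3) + (al c % 3 + 1 + bt b (al c / 3)) % 3 := by
  apply stp_eq h
  have h1 := al_small c hc
  have h2 : al c / 3 < 18 := by omega
  have : ∀ v, v < 18 → bt fullm v ≠ 0 := by decide +kernel
  exact this _ h2

lemma trc_sound {f : Nat → Nat} {b : Nat} (h : Ext f fullm b) :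
    ∀ (k c s d : Nat), c < 54 → (trc b k c s).testBit d = true →
      s.testBit d = true ∨ ∃ i, (stp f)^[i] c = d
  | 0, c, s, d, _, hh => Or.inl hh
  | k + 1, c, s, d, hc, hh => by
    rw [trc, ← stp_full h c hc] at hh
    rcases trc_sound h k _ _ d (stp_lt f c hc) hh with h1 | ⟨i, hi⟩
    · rw [Nat.testBit_or, Bool.or_eq_true] at h1
      rcases h1 with h1 | h1
      · exact Or.inl h1
      · right
        rw [Nat.testBit_two_pow] at h1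
        refine ⟨0, ?_⟩
        simpa using h1
    · right
      exact ⟨i + 1, by rw [Function.iterate_succ_apply]; exact hi⟩

lemma trcs_sound {f : Nat → Nat} {b : Nat} (h : Ext f fullm b) :
    ∀ (L : List (Nat × Nat)) (s d : Nat), (∀ p ∈ L, p.1 < 54) → (trcs b L s).testBit d = true →
      s.testBit d = true ∨ ∃ r ∈ L.map Prod.fst, ∃ i, (stp f)^[i] r = d
  | [], s, d, _, hh => Or.inl hh
  | (r, l) :: t, s, d, hL, hh => by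
    rw [trcs] at hh
    rcases trcs_sound h t _ d (fun p hp => hL p (List.mem_cons_of_mem _ hp)) hh with h1 | ⟨q, hq, hi⟩
    · rcases trc_sound h l r s d (hL (r, l) List.mem_cons_self) h1 with h2 | h2
      · exact Or.inl h2
      · exact Or.inr ⟨r, by simp, h2⟩
    · exact Or.inr ⟨q, by simp only [List.map_cons, List.mem_cons]; exact Or.inr hq, hi⟩

/-- certificates -/
inductive Cert : Type
  | V (d : Nat) : Cert
  | L (reps : List (Nat × Nat)) : Cert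
  | N (v : Nat) (l r : Cert) : Cert

open Cert

def chk : Cert → Nat → Nat → Bool
  | V d, m, b => Nat.blt d 54 && hit m b (al d) 54 d
  | L reps, m, b => Nat.beq m fullm && (Nat.ble reps.length 8 &&
      (reps.all (fun p => Nat.blt p.1 54) && Nat.beq (trcs b reps 0) (2 ^ 54 - 1)))
  | N v l r, m, b => Nat.beq (bt m v) 0 && (Nat.beq (bt b v) 0 &&
      (chk l (m + 2 ^ v) b && chk r (m + 2 ^ v) (b + 2 ^ v)))

lemma bt_add_self {m v : Nat} (h : bt m v = 0) : bt (m + 2 ^ v) v = 1 := by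
  unfold bt at *
  rw [Nat.add_div_right _ (Nat.two_pow_pos v)]
  omega

lemma bt_add_ne {m v w : Nat} (h : bt m v = 0) (hw : w ≠ v) : bt (m + 2 ^ v) w = bt m w := by
  unfold bt at *
  rcases Nat.lt_or_ge w v with h1 | h1
  · obtain ⟨k, rfl⟩ := Nat.exists_eq_add_of_lt h1
    have : (2 : Nat) ^ (w + k + 1) = 2 ^ w * (2 * 2 ^ k) := by ring
    rw [this, Nat.add_mul_div_left _ _ (Nat.two_pow_pos w)]
    omega
  · have h2 : v < w := by omega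
    obtain ⟨k, rfl⟩ := Nat.exists_eq_add_of_lt h2
    have e : (2 : Nat) ^ (v + k + 1) = 2 ^ v * 2 * 2 ^ k := by ring
    rw [e, ← Nat.div_div_eq_div_mul, ← Nat.div_div_eq_div_mul, ← Nat.div_div_eq_div_mul,
      ← Nat.div_div_eq_div_mul, Nat.add_div_right _ (Nat.two_pow_pos v)]
    have : (m / 2 ^ v + 1) / 2 = m / 2 ^ v / 2 := by omega
    rw [this]

lemma chk_sound {f : Nat → Nat} : ∀ (t : Cert) (m b : Nat), Ext f m b → chk t m b = true → Good f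
  | V d, m, b, h, hc => by
    rw [chk, Bool.and_eq_true] at hc
    left
    exact ⟨d, by simpa [Nat.blt] using hc.1, hit_sound h _ _ _ hc.2⟩
  | L reps, m, b, h, hc => by
    rw [chk, Bool.and_eq_true, Bool.and_eq_true, Bool.and_eq_true] at hc
    obtain ⟨h1, h2, h3, h4⟩ := hc
    have e1 : m = fullm := Nat.eq_of_beq_eq_true h1
    subst e1
    have h3' : ∀ p ∈ reps, p.1 < 54 := by
      intro p hp
      have := List.all_eq_true.mp h3 p hp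
      simpa [Nat.blt] using this
    have e4 := Nat.eq_of_beq_eq_true h4
    right
    refine ⟨reps.map Prod.fst, ?_, ?_, ?_⟩
    · rw [List.length_map]; exact Nat.le_of_ble_eq_true h2
    · intro r hr
      obtain ⟨p, hp, rfl⟩ := List.mem_map.mp hr
      exact h3' p hp
    · intro d hd
      have := trcs_sound h reps 0 d h3' (by rw [e4, Nat.testBit_two_pow_sub_one]; simpa using hd)
      rcases this with h5 | h5
      · simp at h5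
      · exact h5
  | N v l r, m, b, h, hc => by
    rw [chk, Bool.and_eq_true, Bool.and_eq_true, Bool.and_eq_true] at hc
    obtain ⟨h1, h2, h3, h4⟩ := hc
    have e1 := Nat.eq_of_beq_eq_true h1
    have e2 := Nat.eq_of_beq_eq_true h2
    rcases Nat.mod_two_eq_zero_or_one (f v) with hf | hf
    · apply chk_sound l _ _ _ h3
      intro w hw
      by_cases hwv : w = v
      · subst hwv; rw [hf, e2]
      · rw [bt_add_ne e1 hwv] at hw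
        exact h w hw
    · apply chk_sound r _ _ _ h4
      intro w hw
      by_cases hwv : w = v
      · subst hwv; rw [hf, bt_add_self e2]
      · rw [bt_add_ne e1 hwv] at hw
        rw [bt_add_ne e2 hwv]
        exact h w hw

/-! ### From rotation systems to bits -/

lemma fin3_rot : ∀ π : Fin 3 → Fin 3, Function.Injective π → (∀ j, π j ≠ j) →
    ∀ j : Fin 3, (π j).val = (j.val + 1 + (if π 0 = 1 then 0 else 1) % 2) % 3 := by decide +kernel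

section rot

variable (ρ : CellularEmbedding Gr)

/-- the rotation, on pairs -/
noncomputable def rot (p : Fin 18 × Fin 3) : Fin 18 × Fin 3 := eqv.symm (ρ.next (mk p))

lemma mk_rot (p : Fin 18 × Fin 3) : mk (rot ρ p) = ρ.next (mk p) := by
  unfold rot
  rw [← eqv_apply, Equiv.apply_symm_apply]

lemma rot_fst (p : Fin 18 × Fin 3) : (rot ρ p).1 = p.1 := by
  have h := ρ.fst_next (mk p)
  rw [← mk_rot] at h
  exact h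

lemma rot_ne (p : Fin 18 × Fin 3) : rot ρ p ≠ p := by
  intro h
  have h1 : ρ.next (mk p) = mk p := by rw [← mk_rot, h]
  have key : ∀ j : Fin 3, j = p.2 := by
    intro j
    have hs := ρ.cyclic (mk p) (mk (p.1, j)) rfl
    have h2 : mk p = mk (p.1, j) := hs.eq_of_left h1
    have h3 := mk_inj h2
    rw [h3]
  have h0 := key 0
  have h1' := key 1
  rw [← h1'] at h0
  exact absurd h0 (by decide)

noncomputable def fbit (u : Nat) : Nat :=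
  if h : u < 18 then (if (rot ρ (⟨u, h⟩, 0)).2 = 1 then 0 else 1) else 0

lemma rot_snd (p : Fin 18 × Fin 3) :
    (rot ρ p).2.val = (p.2.val + 1 + fbit ρ p.1.val % 2) % 3 := by
  have h := fin3_rot (fun j => (rot ρ (p.1, j)).2) ?_ ?_ p.2
  · rw [h]
    have : fbit ρ p.1.val = if (rot ρ (p.1, 0)).2 = 1 then 0 else 1 := by
      unfold fbit
      rw [dif_pos p.1.isLt]
    rw [this]
  · intro i j hij
    have h1 : rot ρ (p.1, i) = rot ρ (p.1, j) := Prod.ext (by rw [rot_fst, rot_fst]) hij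
    have h2 : ρ.next (mk (p.1, i)) = ρ.next (mk (p.1, j)) := by rw [← mk_rot, ← mk_rot, h1]
    have h3 := mk_inj (ρ.next.injective h2)
    exact congrArg Prod.snd h3
  · intro j hj
    apply rot_ne ρ (p.1, j)
    exact Prod.ext (rot_fst ρ _) hj

lemma perimeter_mk (p : Fin 18 × Fin 3) : ρ.perimeter (mk p) = mk (rot ρ (rv p)) := by
  rw [mk_rot, mk_rv]
  rfl

lemma stp_enc (p : Fin 18 × Fin 3) : stp (fbit ρ) (enc p) = enc (rot ρ (rv p)) := by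
  unfold stp
  rw [al_enc]
  have h1 := (rv p).2.isLt
  have e1 : enc (rv p) / 3 = (rv p).1.val := by unfold enc; omega
  have e2 : enc (rv p) % 3 = (rv p).2.val := by unfold enc; omega
  rw [e1, e2, ← rot_snd ρ (rv p)]
  unfold enc
  rw [rot_fst]

lemma iter_enc (i : Nat) : ∀ p : Fin 18 × Fin 3,
    ∃ q, (stp (fbit ρ))^[i] (enc p) = enc q ∧ (ρ.perimeter ^ i) (mk p) = mk q := by
  induction i with
  | zero => intro p; exact ⟨p, rfl, rfl⟩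
  | succ i ih =>
    intro p
    obtain ⟨q, h1, h2⟩ := ih (rot ρ (rv p))
    refine ⟨q, ?_, ?_⟩
    · rw [Function.iterate_succ_apply, stp_enc, h1]
    · rw [pow_succ, Equiv.Perm.mul_apply, perimeter_mk, h2]

lemma sameCycle_of_iter (p q : Fin 18 × Fin 3) (i : Nat)
    (h : (stp (fbit ρ))^[i] (enc p) = enc q) : ρ.perimeter.SameCycle (mk p) (mk q) := by
  obtain ⟨q', h1, h2⟩ := iter_enc ρ i p
  have : q' = q := enc_inj (by rw [← h1, h])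
  subst this
  exact ⟨(i : ℤ), by rw [zpow_natCast]; exact h2⟩

lemma enc_surj (d : Nat) (hd : d < 54) : ∃ p, enc p = d :=
  ⟨(⟨d / 3, by omega⟩, ⟨d % 3, by omega⟩), by unfold enc; simp only; omega⟩

lemma good_concl (h : Good (fbit ρ)) :
    (∃ d : Gr.Dart, ρ.perimeter.SameCycle d d.symm) ∨ ρ.numRegions ≤ 8 := by
  rcases h with ⟨d, hd, i, hi⟩ | ⟨reps, hlen, hr, hcov⟩
  · left
    obtain ⟨p, rfl⟩ := enc_surj d hd
    rw [al_enc] at hi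
    refine ⟨mk p, ?_⟩
    rw [← mk_rv]
    exact sameCycle_of_iter ρ p (rv p) i hi
  · right
    have hsurj : Function.Surjective (fun k : Fin reps.length =>
        (Quotient.mk (Equiv.Perm.SameCycle.setoid ρ.perimeter)
          (mk (⟨reps.get k / 3, by have := hr _ (List.get_mem reps k); omega⟩,
            ⟨reps.get k % 3, by omega⟩)))) := by
      intro x
      induction x using Quotient.inductionOn with
      | h d =>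
        obtain ⟨p, rfl⟩ := mk_surj d
        obtain ⟨r, hrm, i, hi⟩ := hcov (enc p) (enc_lt p)
        obtain ⟨k, rfl⟩ := List.get_of_mem hrm
        refine ⟨k, Quotient.sound ?_⟩
        have hlt := hr _ (List.get_mem reps k)
        apply sameCycle_of_iter ρ _ p i
        have : enc (⟨reps.get k / 3, by omega⟩, ⟨reps.get k % 3, by omega⟩) = reps.get k := by
          unfold enc; simp only; omega
        rw [this]
        exact hi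
    have := Nat.card_le_card_of_surjective _ hsurj
    rw [Nat.card_fin] at this
    exact le_trans this hlen

end rot

/-! ### An embedding in the torus -/

def tb (u : Fin 18) : Fin 3 :=
  (![1, 1, 2, 1, 1, 2, 2, 1, 2, 1, 2, 1, 1, 2, 1, 2, 2, 1] : Fin 18 → Fin 3) u

/-- rotation on pairs -/
def trot : Equiv.Perm (Fin 18 × Fin 3) where
  toFun p := (p.1, p.2 + tb p.1)
  invFun p := (p.1, p.2 - tb p.1)
  left_inv p := by simp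
  right_inv p := by simp

noncomputable def torusEmb : CellularEmbedding Gr where
  next := eqv.symm.trans (trot.trans eqv)
  fst_next := by
    intro d
    obtain ⟨p, rfl⟩ := mk_surj d
    rw [← eqv_apply]
    simp only [Equiv.trans_apply, Equiv.symm_apply_apply]
    rfl
  cyclic := by
    intro d e h
    obtain ⟨⟨u, i⟩, rfl⟩ := mk_surj d
    obtain ⟨⟨v, j⟩, rfl⟩ := mk_surj e
    have huv : u = v := h
    subst huv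
    have key : ∀ (u : Fin 18) (i j : Fin 3), ∃ k : Fin 3, (trot ^ k.val) (u, i) = (u, j) := by
      decide +kernel
    obtain ⟨k, hk⟩ := key u i j
    refine ⟨(k.val : ℤ), ?_⟩
    rw [zpow_natCast]
    have gen : ∀ (n : Nat) (p : Fin 18 × Fin 3),
        ((eqv.symm.trans (trot.trans eqv)) ^ n) (eqv p) = eqv ((trot ^ n) p) := by
      intro n
      induction n with
      | zero => intro p; rfl
      | succ n ih =>
        intro p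
        rw [pow_succ, Equiv.Perm.mul_apply, pow_succ, Equiv.Perm.mul_apply]
        have : (eqv.symm.trans (trot.trans eqv)) (eqv p) = eqv (trot p) := by
          simp only [Equiv.trans_apply, Equiv.symm_apply_apply]
        rw [this, ih]
    rw [← eqv_apply, gen, hk]
    rfl

def tstep (p : Fin 18 × Fin 3) : Fin 18 × Fin 3 := trot (rv p)

lemma torus_perimeter (p : Fin 18 × Fin 3) : torusEmb.perimeter (mk p) = mk (tstep p) := by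
  have : torusEmb.perimeter (mk p) = torusEmb.next ((mk p).symm) := rfl
  rw [this, ← mk_rv, ← eqv_apply]
  show (eqv.symm.trans (trot.trans eqv)) (eqv (rv p)) = _
  simp only [Equiv.trans_apply, Equiv.symm_apply_apply]
  rfl

def lab (p : Fin 18 × Fin 3) : Fin 9 :=
  (![![0, 1, 0], ![1, 0, 2], ![0, 3, 1], ![0, 0, 4], ![2, 0, 5], ![1, 6, 2], ![0, 5, 3], ![3, 1, 6],
    ![4, 7, 0], ![0, 4, 8], ![2, 7, 5], ![6, 2, 7], ![5, 3, 8], ![3, 8, 6], ![4, 7, 5], ![7, 6, 0],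
    ![8, 5, 4], ![0, 8, 6]] : Fin 18 → Fin 3 → Fin 9) p.1 p.2

def idx (p : Fin 18 × Fin 3) : Fin 12 :=
  (![![0, 0, 5], ![4, 1, 0], ![4, 0, 1], ![11, 6, 0], ![4, 2, 0], ![3, 0, 1], ![3, 5, 1], ![4, 2, 1],
    ![4, 0, 7], ![10, 1, 0], ![3, 2, 1], ![5, 2, 3], ![4, 2, 3], ![3, 2, 2], ![3, 1, 2], ![4, 4, 8],
    ![4, 3, 2], ![9, 1, 3]] : Fin 18 → Fin 3 → Fin 12) p.1 p.2

def rp (k : Fin 9) : Fin 18 × Fin 3 :=
  (![(0, 0), (0, 1), (1, 2), (2, 1), (3, 2), (4, 2), (5, 1), (8, 1), (9, 2)] :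
    Fin 9 → Fin 18 × Fin 3) k

lemma lab_step : ∀ (u : Fin 18) (j : Fin 3), lab (tstep (u, j)) = lab (u, j) := by decide +kernel

lemma lab_rp : ∀ k : Fin 9, lab (rp k) = k := by decide +kernel

lemma reach_rp : ∀ (u : Fin 18) (j : Fin 3), tstep^[(idx (u, j)).val] (rp (lab (u, j))) = (u, j) := by
  decide +kernel

lemma torus_pow (n : Nat) : ∀ p : Fin 18 × Fin 3, (torusEmb.perimeter ^ n) (mk p) = mk (tstep^[n] p) := by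
  induction n with
  | zero => intro p; rfl
  | succ n ih => intro p; rw [pow_succ, Equiv.Perm.mul_apply, torus_perimeter, ih,
      Function.iterate_succ_apply]

lemma torus_sameCycle (p : Fin 18 × Fin 3) :
    torusEmb.perimeter.SameCycle (mk (rp (lab p))) (mk p) :=
  ⟨((idx p).val : ℤ), by rw [zpow_natCast, torus_pow, reach_rp p.1 p.2]⟩

noncomputable def lab' (d : Gr.Dart) : Fin 9 := lab (eqv.symm d)

lemma lab'_mk (p : Fin 18 × Fin 3) : lab' (mk p) = lab p := by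
  unfold lab'; rw [← eqv_apply, Equiv.symm_apply_apply]

lemma lab'_perimeter (d : Gr.Dart) : lab' (torusEmb.perimeter d) = lab' d := by
  obtain ⟨p, rfl⟩ := mk_surj d
  rw [torus_perimeter, lab'_mk, lab'_mk]
  exact lab_step p.1 p.2

lemma lab'_pow (n : Nat) : ∀ d : Gr.Dart, lab' ((torusEmb.perimeter ^ n) d) = lab' d := by
  induction n with
  | zero => intro d; rfl
  | succ n ih => intro d; rw [pow_succ, Equiv.Perm.mul_apply, ih, lab'_perimeter]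

lemma lab'_sameCycle {d e : Gr.Dart} (h : torusEmb.perimeter.SameCycle d e) : lab' d = lab' e := by
  obtain ⟨n, hn⟩ := h
  rcases Int.eq_nat_or_neg n with ⟨k, rfl | rfl⟩
  · rw [zpow_natCast] at hn
    rw [← hn, lab'_pow]
  · rw [zpow_neg, zpow_natCast, Equiv.Perm.inv_eq_iff_eq] at hn
    rw [hn, lab'_pow]

lemma torus_numRegions : torusEmb.numRegions = 9 := by
  unfold CellularEmbedding.numRegions
  have hb : Function.Bijective (fun k : Fin 9 =>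
      Quotient.mk (Equiv.Perm.SameCycle.setoid torusEmb.perimeter) (mk (rp k))) := by
    constructor
    · intro k l hkl
      have h := Quotient.exact hkl
      have h2 := lab'_sameCycle h
      rw [lab'_mk, lab'_mk, lab_rp, lab_rp] at h2
      exact h2
    · intro x
      induction x using Quotient.inductionOn with
      | h d =>
        obtain ⟨p, rfl⟩ := mk_surj d
        exact ⟨lab p, Quotient.sound (torus_sameCycle p)⟩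
  rw [← Nat.card_eq_of_bijective _ hb, Nat.card_eq_fintype_card, Fintype.card_fin]

/-! ### Number of edges -/

lemma degree_three (v : Fin 18) : (Gr.neighborSet v).ncard = 3 := by
  have h : Gr.neighborSet v = Set.range (nbr v) := by
    ext w
    exact Iff.rfl
  rw [h, ← Set.image_univ, Set.ncard_image_of_injective _ (fun i j hij => nbr_inj v i j hij),
    Set.ncard_univ, Nat.card_eq_fintype_card, Fintype.card_fin]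

instance : DecidableRel Gr.Adj := fun u v => (inferInstance : Decidable (∃ j, nbr u j = v))

lemma card_edges : Nat.card Gr.edgeSet = 27 := by
  have h := Gr.sum_degrees_eq_twice_card_edges
  have h3 : ∀ v : Fin 18, Gr.degree v = 3 := by
    intro v
    rw [← SimpleGraph.card_neighborSet_eq_degree, ← Nat.card_eq_fintype_card]
    exact degree_three v
  simp only [h3, Finset.sum_const, Finset.card_univ, Fintype.card_fin, smul_eq_mul] at h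
  rw [Nat.card_eq_fintype_card, SimpleGraph.card_edgeSet]
  omega

lemma torus_inSurface : torusEmb.InSurface 1 := by
  unfold CellularEmbedding.InSurface
  rw [torus_numRegions, card_edges, Nat.card_eq_fintype_card, Fintype.card_fin]

lemma genus_le : genus Gr ≤ 1 := Nat.sInf_le ⟨torusEmb, torus_inSurface⟩

/-! ### No planar embedding -/

lemma no_short : ∀ d : Fin 54, ∀ x y z w : Fin 2,
    (3 * (al d.val / 3) + (al d.val % 3 + 1 + x.val) % 3 ≠ d.val) ∧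
    ((fun a => 3 * (al a / 3) + (al a % 3 + 1 + y.val) % 3)
      (3 * (al d.val / 3) + (al d.val % 3 + 1 + x.val) % 3) ≠ d.val) ∧
    ((fun a => 3 * (al a / 3) + (al a % 3 + 1 + z.val) % 3)
      ((fun a => 3 * (al a / 3) + (al a % 3 + 1 + y.val) % 3)
        (3 * (al d.val / 3) + (al d.val % 3 + 1 + x.val) % 3)) ≠ d.val) ∧
    ((fun a => 3 * (al a / 3) + (al a % 3 + 1 + w.val) % 3)
      ((fun a => 3 * (al a / 3) + (al a % 3 + 1 + z.val) % 3)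
        ((fun a => 3 * (al a / 3) + (al a % 3 + 1 + y.val) % 3)
          (3 * (al d.val / 3) + (al d.val % 3 + 1 + x.val) % 3))) ≠ d.val) := by
  decide +kernel

lemma stp_noreturn (f : Nat → Nat) (d : Nat) (hd : d < 54) (k : Nat) (h1 : 1 ≤ k) (h4 : k ≤ 4) :
    (stp f)^[k] d ≠ d := by
  have H := no_short ⟨d, hd⟩ ⟨f (al d / 3) % 2, Nat.mod_lt _ (by norm_num)⟩
    ⟨f (al (stp f d) / 3) % 2, Nat.mod_lt _ (by norm_num)⟩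
    ⟨f (al (stp f (stp f d)) / 3) % 2, Nat.mod_lt _ (by norm_num)⟩
    ⟨f (al (stp f (stp f (stp f d))) / 3) % 2, Nat.mod_lt _ (by norm_num)⟩
  obtain ⟨a1, a2, a3, a4⟩ := H
  interval_cases k
  · exact a1
  · exact a2
  · exact a3
  · exact a4

lemma perimeter_noreturn (ρ : CellularEmbedding Gr) (d : Gr.Dart) (k : Nat) (h1 : 1 ≤ k)
    (h4 : k ≤ 4) : (ρ.perimeter ^ k) d ≠ d := by
  obtain ⟨p, rfl⟩ := mk_surj d
  obtain ⟨q, hq1, hq2⟩ := iter_enc ρ k p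
  intro h
  rw [hq2] at h
  have : q = p := mk_inj h
  subst this
  exact stp_noreturn _ _ (enc_lt q) k h1 h4 hq1

lemma regions_le (ρ : CellularEmbedding Gr) : 5 * ρ.numRegions ≤ 54 := by
  have hinj : Function.Injective (fun x : Quotient (Equiv.Perm.SameCycle.setoid ρ.perimeter) × Fin 5 =>
      (ρ.perimeter ^ x.2.val) x.1.out) := by
    rintro ⟨x, i⟩ ⟨y, j⟩ h
    simp only at h
    have hs : ρ.perimeter.SameCycle x.out y.out := by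
      refine ⟨(i.val : ℤ) - (j.val : ℤ), ?_⟩
      rw [zpow_sub, zpow_natCast, zpow_natCast]
      have : (ρ.perimeter ^ i.val * (ρ.perimeter ^ j.val)⁻¹) =
          ((ρ.perimeter ^ j.val)⁻¹ * ρ.perimeter ^ i.val) :=
        ((Commute.refl ρ.perimeter).pow_pow i.val j.val).inv_right.eq
      rw [this, Equiv.Perm.mul_apply, h]
      exact Equiv.symm_apply_apply _ _
    have hxy : x = y := by
      rw [← Quotient.out_eq x, ← Quotient.out_eq y]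
      exact Quotient.sound hs
    subst hxy
    have aux : ∀ (a b : Nat), a < 5 → b < 5 → a < b →
        (ρ.perimeter ^ a) x.out = (ρ.perimeter ^ b) x.out → False := by
      intro a b ha hb hab hh
      obtain ⟨k, rfl⟩ := Nat.exists_eq_add_of_lt hab
      have : (ρ.perimeter ^ (a + k + 1)) x.out = (ρ.perimeter ^ a) ((ρ.perimeter ^ (k + 1)) x.out) := by
        rw [← Equiv.Perm.mul_apply, ← pow_add]
        rfl
      rw [this] at hh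
      have h2 := (ρ.perimeter ^ a).injective hh
      exact perimeter_noreturn ρ x.out (k + 1) (by omega) (by omega) h2.symm
    have : i = j := by
      rcases lt_trichotomy i.val j.val with h1 | h1 | h1
      · exact (aux _ _ i.isLt j.isLt h1 h).elim
      · exact Fin.ext h1
      · exact (aux _ _ j.isLt i.isLt h1 h.symm).elim
    rw [this]
  have : Finite Gr.Dart := Finite.of_equiv _ eqv
  have h := Nat.card_le_card_of_injective _ hinj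
  rw [Nat.card_prod, Nat.card_fin, ← Nat.card_congr eqv, Nat.card_prod, Nat.card_fin,
    Nat.card_fin] at h
  unfold CellularEmbedding.numRegions
  omega

lemma genus_eq : genus Gr = 1 := by
  apply le_antisymm genus_le
  have hne : {g : ℕ | ∃ ρ : CellularEmbedding Gr, ρ.InSurface g}.Nonempty :=
    ⟨1, torusEmb, torus_inSurface⟩
  obtain ⟨ρ, hρ⟩ := Nat.sInf_mem hne
  have hg : (sInf {g : ℕ | ∃ ρ : CellularEmbedding Gr, ρ.InSurface g}) = genus Gr := rfl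
  rw [hg] at hρ
  unfold CellularEmbedding.InSurface at hρ
  rw [card_edges, Nat.card_fin] at hρ
  have := regions_le ρ
  omega

/-! ### Edge cuts -/

/-- edges from vertex number `i` to smaller vertices of the other side -/
def cnt (f : Nat → Nat) (i : Nat) : Nat :=
  (if al (3 * i) / 3 < i ∧ f (al (3 * i) / 3) ≠ f i then 1 else 0) +
  (if al (3 * i + 1) / 3 < i ∧ f (al (3 * i + 1) / 3) ≠ f i then 1 else 0) +
  (if al (3 * i + 2) / 3 < i ∧ f (al (3 * i + 2) / 3) ≠ f i then 1 else 0)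

def cntb (b i x : Nat) : Nat :=
  (if al (3 * i) / 3 < i ∧ bt b (al (3 * i) / 3) ≠ x then 1 else 0) +
  (if al (3 * i + 1) / 3 < i ∧ bt b (al (3 * i + 1) / 3) ≠ x then 1 else 0) +
  (if al (3 * i + 2) / 3 < i ∧ bt b (al (3 * i + 2) / 3) ≠ x then 1 else 0)

def dfs (K lo hi : Nat) : Nat → Nat → Nat → Nat → Nat → Bool
  | 0, _, _, _, p => Nat.ble p lo || Nat.ble hi p
  | k + 1, i, b, c, p =>
    (Nat.ble K (c + cntb b i 0) || dfs K lo hi k (i + 1) b (c + cntb b i 0) p) &&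
    (Nat.ble K (c + cntb b i 1) || dfs K lo hi k (i + 1) (b + 2 ^ i) (c + cntb b i 1) (p + 1))

lemma cnt_eq {f : Nat → Nat} {b i : Nat} (h : ∀ v, v < i → f v = bt b v) :
    cnt f i = cntb b i (f i) := by
  unfold cnt cntb
  congr 1
  · congr 1
    · by_cases h1 : al (3 * i) / 3 < i
      · rw [h _ h1]
      · simp [h1]
    · by_cases h1 : al (3 * i + 1) / 3 < i
      · rw [h _ h1]
      · simp [h1]
  · by_cases h1 : al (3 * i + 2) / 3 < i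
    · rw [h _ h1]
    · simp [h1]

lemma bt_small {b i : Nat} (hb : b < 2 ^ i) : bt b i = 0 := by
  unfold bt; rw [Nat.div_eq_of_lt hb]

lemma dfs_sound {f : Nat → Nat} (hf : ∀ v, f v = 0 ∨ f v = 1) (K lo hi : Nat) :
    ∀ (k i b c p : Nat), (∀ v, v < i → f v = bt b v) → b < 2 ^ i →
      c = ∑ v ∈ Finset.range i, cnt f v → p = ∑ v ∈ Finset.range i, f v →
      dfs K lo hi k i b c p = true →
      K ≤ ∑ v ∈ Finset.range (i + k), cnt f v ∨ ∑ v ∈ Finset.range (i + k), f v ≤ lo ∨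
        hi ≤ ∑ v ∈ Finset.range (i + k), f v
  | 0, i, b, c, p, h, hb, hc, hp, hd => by
    rw [dfs, Bool.or_eq_true] at hd
    rw [Nat.add_zero, ← hp]
    rcases hd with h1 | h1
    · exact Or.inr (Or.inl (Nat.le_of_ble_eq_true h1))
    · exact Or.inr (Or.inr (Nat.le_of_ble_eq_true h1))
  | k + 1, i, b, c, p, h, hb, hc, hp, hd => by
    rw [dfs, Bool.and_eq_true, Bool.or_eq_true, Bool.or_eq_true] at hd
    have hmono : ∑ v ∈ Finset.range (i + 1), cnt f v ≤ ∑ v ∈ Finset.range (i + (k + 1)), cnt f v := by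
      apply Finset.sum_le_sum_of_subset
      intro x hx
      rw [Finset.mem_range] at *
      omega
    have e : i + (k + 1) = (i + 1) + k := by omega
    rcases hf i with hfi | hfi
    · have hs : c + cntb b i 0 = ∑ v ∈ Finset.range (i + 1), cnt f v := by
        rw [Finset.sum_range_succ, ← hc, cnt_eq h, hfi]
      rcases hd.1 with h1 | h1
      · left
        have := Nat.le_of_ble_eq_true h1
        rw [hs] at this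
        exact le_trans this hmono
      · rw [e]
        apply dfs_sound hf K lo hi k (i + 1) b _ p _ _ hs _ h1
        · intro v hv
          rcases Nat.lt_succ_iff_lt_or_eq.mp hv with h2 | h2
          · exact h v h2
          · subst h2; rw [hfi, bt_small hb]
        · calc b < 2 ^ i := hb
            _ ≤ 2 ^ (i + 1) := Nat.pow_le_pow_right (by norm_num) (by omega)
        · rw [Finset.sum_range_succ, hfi, ← hp]
          rfl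
    · have hs : c + cntb b i 1 = ∑ v ∈ Finset.range (i + 1), cnt f v := by
        rw [Finset.sum_range_succ, ← hc, cnt_eq h, hfi]
      rcases hd.2 with h1 | h1
      · left
        have := Nat.le_of_ble_eq_true h1
        rw [hs] at this
        exact le_trans this hmono
      · rw [e]
        apply dfs_sound hf K lo hi k (i + 1) (b + 2 ^ i) _ (p + 1) _ _ hs _ h1
        · intro v hv
          rcases Nat.lt_succ_iff_lt_or_eq.mp hv with h2 | h2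
          · rw [h v h2, bt_add_ne (bt_small hb) (by omega)]
          · subst h2; rw [hfi, bt_add_self (bt_small hb)]
        · rw [pow_succ]; omega
        · rw [Finset.sum_range_succ, hfi, ← hp]

lemma nbr_al : ∀ (u : Fin 18) (j : Fin 3), al (3 * u.val + j.val) / 3 = (nbr u j).val := by
  decide +kernel

/-- indicator -/
noncomputable def ind (S : Set (Fin 18)) (v : Nat) : Nat :=
  open Classical in if ∃ h : v < 18, (⟨v, h⟩ : Fin 18) ∈ S then 1 else 0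

lemma ind_cases (S : Set (Fin 18)) (v : Nat) : ind S v = 0 ∨ ind S v = 1 := by
  unfold ind
  split_ifs
  · exact Or.inr rfl
  · exact Or.inl rfl

lemma ind_fin (S : Set (Fin 18)) (v : Fin 18) : ind S v.val = 1 ↔ v ∈ S := by
  unfold ind
  split_ifs with h
  · obtain ⟨h1, h2⟩ := h
    exact ⟨fun _ => h2, fun _ => rfl⟩
  · constructor
    · intro h1; exact absurd h1 (by norm_num)
    · intro h1; exact absurd ⟨v.isLt, h1⟩ h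

/-- the edges between `S` and its complement -/
def cutset (S : Set (Fin 18)) : Set (Sym2 (Fin 18)) :=
  {e | ∃ x y, x ∈ S ∧ y ∉ S ∧ Gr.Adj x y ∧ e = s(x, y)}

lemma sum_cnt_le (S : Set (Fin 18)) :
    ∑ v ∈ Finset.range 18, cnt (ind S) v ≤ (cutset S).ncard := by
  classical
  set A : Finset (Fin 18 × Fin 3) := Finset.univ.filter
    (fun p => (nbr p.1 p.2).val < p.1.val ∧ ind S (nbr p.1 p.2).val ≠ ind S p.1.val) with hA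
  have hcard : ∑ v ∈ Finset.range 18, cnt (ind S) v = A.card := by
    rw [hA, Finset.card_filter, Fintype.sum_prod_type, Finset.sum_range]
    apply Finset.sum_congr rfl
    intro u _
    rw [Fin.sum_univ_three]
    unfold cnt
    have h0 := nbr_al u 0
    have h1 := nbr_al u 1
    have h2 := nbr_al u 2
    rw [show ((0 : Fin 3).val) = 0 from rfl, Nat.add_zero] at h0
    rw [show ((1 : Fin 3).val) = 1 from rfl] at h1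
    rw [show ((2 : Fin 3).val) = 2 from rfl] at h2
    rw [h0, h1, h2]
  rw [hcard, ← Set.ncard_coe_finset A]
  apply Set.ncard_le_ncard_of_injOn (fun p => s(p.1, nbr p.1 p.2)) _ _ (Set.toFinite _)
  · intro p hp
    rw [Finset.mem_coe, hA, Finset.mem_filter] at hp
    obtain ⟨_, _, hne⟩ := hp
    by_cases h1 : p.1 ∈ S
    · refine ⟨p.1, nbr p.1 p.2, h1, ?_, adj_nbr _ _, rfl⟩
      intro h2
      rw [(ind_fin S _).mpr h1, (ind_fin S _).mpr h2] at hne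
      exact hne rfl
    · refine ⟨nbr p.1 p.2, p.1, ?_, h1, (adj_nbr _ _).symm, Sym2.eq_swap⟩
      by_contra h2
      have e1 : ind S p.1.val = 0 := by
        rcases ind_cases S p.1.val with h | h
        · exact h
        · exact absurd ((ind_fin S _).mp h) h1
      have e2 : ind S (nbr p.1 p.2).val = 0 := by
        rcases ind_cases S (nbr p.1 p.2).val with h | h
        · exact h
        · exact absurd ((ind_fin S _).mp h) h2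
      rw [e1, e2] at hne
      exact hne rfl
  · rintro ⟨u, i⟩ hp ⟨v, j⟩ hq h
    rw [Finset.mem_coe, hA, Finset.mem_filter] at hp hq
    have hp1 := hp.2.1
    have hq1 := hq.2.1
    simp only at hp1 hq1 h
    rw [Sym2.eq_iff] at h
    rcases h with ⟨h1, h2⟩ | ⟨h1, h2⟩
    · subst h1
      rw [nbr_inj u i j h2]
    · exfalso
      rw [← h1] at hq1
      rw [h2] at hp1
      omega

lemma sum_ind (S : Set (Fin 18)) : ∑ v ∈ Finset.range 18, ind S v = S.ncard := by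
  classical
  have h : S = ↑(Finset.univ.filter (fun v => v ∈ S)) := by ext v; simp
  rw [h, Set.ncard_coe_finset, Finset.card_filter, Finset.sum_range, ← h]
  apply Finset.sum_congr rfl
  intro u _
  split_ifs with h1
  · exact (ind_fin S u).mpr h1
  · rcases ind_cases S u.val with h2 | h2
    · exact h2
    · exact absurd ((ind_fin S u).mp h2) h1

lemma cuts (K lo hi : Nat) (h : dfs K lo hi 18 0 0 0 0 = true) (S : Set (Fin 18)) :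
    K ≤ (cutset S).ncard ∨ S.ncard ≤ lo ∨ hi ≤ S.ncard := by
  have := dfs_sound (ind_cases S) K lo hi 18 0 0 0 0 (by intro v hv; omega) (by norm_num)
    (by simp) (by simp) h
  rw [Nat.zero_add, sum_ind] at this
  rcases this with h1 | h1
  · exact Or.inl (le_trans h1 (sum_cnt_le S))
  · exact Or.inr h1

lemma dfs5 : dfs 5 2 16 18 0 0 0 0 = true := by decide +kernel

lemma dfs2 : dfs 2 0 18 18 0 0 0 0 = true := by decide +kernel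

lemma cycle_ncard (S : Set (Fin 18)) {v : Fin 18} (c : Gr.Walk v v) (hc : c.IsCycle)
    (hS : ∀ x ∈ c.support, x ∈ S) : 3 ≤ S.ncard := by
  classical
  have h1 := hc.three_le_length
  have h2 : (c.support.tail.toFinset).card = c.length := by
    rw [List.toFinset_card_of_nodup hc.support_nodup, List.length_tail, c.length_support]
    rfl
  rw [← h2] at h1
  refine le_trans h1 ?_
  rw [← Set.ncard_coe_finset]
  apply Set.ncard_le_ncard _ (Set.toFinite _)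
  intro x hx
  rw [Finset.mem_coe, List.mem_toFinset] at hx
  exact hS x (List.mem_of_mem_tail hx)

lemma cyc5 : CyclicallyEdgeConnected Gr 5 := by
  rintro S ⟨v, c, hc, hcS⟩ ⟨w, c', hc', hcS'⟩
  have h3 := cycle_ncard S c hc hcS
  have h4 := cycle_ncard Sᶜ c' hc' hcS'
  have h5 : S.ncard + Sᶜ.ncard = 18 := by
    rw [Set.ncard_add_ncard_compl, Nat.card_fin]
  rcases cuts 5 2 16 dfs5 S with h | h | h
  · exact h
  · omega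
  · omega

lemma nbr_zero_lt : ∀ u : Fin 18, u ≠ 0 → (nbr u 0).val < u.val := by decide +kernel

lemma reach_zero : ∀ (n : Nat) (u : Fin 18), u.val = n → Gr.Reachable u 0 := by
  intro n
  induction n using Nat.strong_induction_on with
  | _ n ih =>
    intro u hu
    by_cases h0 : u = 0
    · subst h0; exact SimpleGraph.Reachable.refl _
    · have h1 := nbr_zero_lt u h0
      have h2 := ih (nbr u 0).val (by omega) (nbr u 0) rfl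
      exact (adj_nbr u 0).reachable.trans h2

lemma conn : Gr.Connected where
  preconnected u v := (reach_zero _ u rfl).trans (reach_zero _ v rfl).symm
  nonempty := ⟨0⟩

lemma no_bridge : ∀ e ∈ Gr.edgeSet, ¬ Gr.IsBridge e := by
  intro e he
  induction e using Sym2.ind with
  | _ x y =>
    rw [SimpleGraph.isBridge_iff]
    intro hbr
    have hadj : Gr.Adj x y := he
    set S : Set (Fin 18) := {z | (Gr \ SimpleGraph.fromEdgeSet {s(x, y)}).Reachable x z} with hS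
    have hx : x ∈ S := SimpleGraph.Reachable.refl _
    have hy : y ∉ S := fun h => hbr h
    have hcut : cutset S ⊆ {s(x, y)} := by
      rintro f ⟨a, b, ha, hb, hab, rfl⟩
      by_contra hne
      rw [Set.mem_singleton_iff] at hne
      apply hb
      have : (Gr \ SimpleGraph.fromEdgeSet {s(x, y)}).Adj a b := by
        rw [SimpleGraph.sdiff_adj, SimpleGraph.fromEdgeSet_adj]
        refine ⟨hab, ?_⟩
        rintro ⟨h1, _⟩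
        exact hne h1
      exact SimpleGraph.Reachable.trans ha this.reachable
    have h1 : (cutset S).ncard ≤ 1 := by
      have := Set.ncard_le_ncard hcut (Set.toFinite _)
      rwa [Set.ncard_singleton] at this
    have h2 : 0 < S.ncard := by
      rw [Set.ncard_pos (Set.toFinite _)]
      exact ⟨x, hx⟩
    have h3 : S.ncard < 18 := by
      have h4 : S.ncard + Sᶜ.ncard = 18 := by
        rw [Set.ncard_add_ncard_compl, Nat.card_fin]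
      have h5 : 0 < Sᶜ.ncard := by
        rw [Set.ncard_pos (Set.toFinite _)]
        exact ⟨y, hy⟩
      omega
    rcases cuts 2 0 18 dfs2 S with h | h | h <;> omega

/-! ### The search for embeddings with at least nine regions and circuit perimeters -/

open Cert in
def cert : Cert :=
(N 1 (N 5 (N 7 (N 0 (N 2 (N 4 (N 6 (N 10 (N 11 (V 46) (N 13 (N 12 (N 14 (N 16 (V 25) (V 46)) (N 16 
(N 17 (N 15 (N 8 (N 3 (V 27) (N 9 (V 51) (L [(0,10),(1,8),(2,7),(5,9),(8,10),(10,5),(26,5)]))) 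
(V 10)) (N 8 (V 53) (V 28))) (N 15 (V 8) (N 8 (V 53) (V 28)))) (V 28))) (V 16)) (N 12 (V 9) (N 14 
(N 16 (N 17 (N 15 (V 29) (V 43)) (N 15 (N 8 (V 50) (V 29)) (V 26))) (N 17 (N 15 (V 29) (V 23)) (N 15
 (N 8 (V 50) (V 29)) (V 26)))) (N 16 (V 4) (N 17 (N 15 (V 29) (V 43)) (N 15 (N 8 (N 3 (N 9 (V 48) 
(L [(0,8),(1,8),(2,9),(5,10),(8,9),(11,5),(26,5)])) (V 27)) (V 10)) (V 26)))))))) (N 11 (V 22) 
(V 43))) (N 10 (N 11 (N 13 (N 12 (N 14 (N 16 (V 25) (V 34)) (N 16 (N 17 (N 15 (V 26) (N 8 (N 3 (N 9 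
(L [(0,15),(1,10),(2,10),(5,9),(11,10)]) (V 2)) (V 19)) (V 28))) (N 15 (N 8 (V 17) (N 3 (V 6) (N 9 
(L [(0,12),(1,13),(2,14),(5,9),(25,6)]) (V 20)))) (V 29))) (V 28))) (V 30)) (N 12 (V 1) (N 14 (N 16 
(N 17 (N 15 (V 29) (V 5)) (N 15 (N 8 (N 3 (V 39) (N 9 (L [(0,16),(1,11),(2,8),(5,11),(14,8)]) (V 2))
) (V 29)) (V 26))) (V 8)) (N 16 (V 15) (N 17 (N 15 (V 29) (V 5)) (N 15 (N 8 (V 17) (N 3 (V 6) (N 9 
(V 38) (L [(0,12),(1,12),(2,12),(5,10),(14,8)])))) (V 26))))))) (V 36)) (N 11 (V 22) (N 13 (N 12 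
(N 14 (N 16 (V 28) (N 17 (N 15 (N 8 (V 28) (N 3 (V 39) (N 9 (V 2) 
(L [(0,15),(1,13),(2,7),(5,13),(14,6)])))) (V 37)) (N 15 (V 8) (N 8 (N 3 (V 6) (N 9 
(L [(0,11),(1,14),(2,11),(5,12),(14,6)]) (V 41))) (V 17))))) (N 16 (V 5) (V 25))) (V 30)) (N 12 
(V 1) (N 14 (N 16 (V 25) (V 40)) (N 16 (N 17 (N 15 (V 26) (N 8 (V 29) (N 3 (N 9 (V 2) 
(L [(0,14),(1,10),(2,11),(5,9),(11,10)])) (V 19)))) (N 15 (V 13) (V 29))) (V 28)))))))) (N 6 (V 15) 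
(N 10 (N 11 (V 43) (V 0)) (N 11 (N 13 (N 12 (V 49) (N 14 (N 16 (N 17 (N 15 (N 8 (N 3 (V 29) (V 28)) 
(V 53)) (V 49)) (N 15 (N 8 (N 3 (N 9 (V 11) (L [(0,8),(1,11),(2,11),(5,7),(8,7),(11,5),(28,5)])) 
(V 27)) (V 53)) (N 8 (V 10) (N 3 (N 9 (V 11) (L [(0,8),(1,14),(2,8),(5,7),(8,7),(25,5),(28,5)])) 
(V 50))))) (N 17 (N 15 (N 8 (V 28) (V 53)) (V 49)) (N 15 (N 8 (V 28) (V 53)) (N 8 (V 10) (N 3 (N 9 
(L [(0,11),(1,11),(2,8),(5,7),(8,7),(11,5),(25,5)]) (V 44)) (V 50)))))) (N 16 (V 46) (N 17 (N 15 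
(N 8 (V 10) (N 3 (V 6) (N 9 (V 35) (L [(0,7),(1,12),(2,7),(5,7),(8,7),(25,7),(28,7)])))) (V 49)) 
(N 15 (N 8 (V 0) (V 29)) (N 8 (V 9) (V 50))))))) (N 12 (V 1) (V 52))) (V 46))))) (V 33)) (N 2 (N 4 
(N 6 (N 10 (N 11 (N 13 (N 12 (V 52) (V 16)) (N 12 (N 14 (N 16 (V 28) (N 17 (N 15 (N 8 (V 10) (N 3 
(N 9 (L [(0,8),(1,10),(2,7),(5,10),(8,9),(11,5),(29,5)]) (V 11)) (V 27))) (V 5)) (N 15 (N 8 (N 3 
(V 15) (V 53)) (V 29)) (N 8 (V 28) (V 14))))) (N 16 (V 52) (V 25))) (V 49))) (V 9)) (N 11 (V 22) 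
(N 13 (N 12 (V 52) (V 16)) (N 12 (N 14 (N 16 (N 17 (N 15 (V 26) (N 8 (V 29) (V 17))) (N 15 (V 49) 
(V 29))) (V 7)) (N 16 (N 17 (N 15 (V 26) (N 8 (N 3 (V 50) (V 18)) (V 28))) (N 15 (V 17) (V 29))) 
(N 17 (N 15 (V 26) (N 8 (V 10) (N 3 (V 27) (N 9 (L [(0,8),(1,8),(2,9),(5,9),(8,10),(10,5),(29,5)]) 
(V 11))))) (N 15 (V 49) (V 29))))) (V 49))))) (V 21)) (N 6 (N 10 (N 11 (N 13 (N 12 (N 14 (N 16 
(V 28) (N 17 (N 15 (V 29) (N 8 (N 3 (N 9 (V 23) (L [(0,13),(1,12),(2,14),(8,9),(26,6)])) (V 6)) 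
(V 14))) (N 15 (N 8 (N 3 (V 42) (N 9 (L [(0,10),(1,15),(2,10),(8,9),(10,10)]) (V 2))) (V 29)) (V 26)
))) (N 16 (V 40) (V 25))) (V 16)) (N 12 (V 30) (N 14 (N 16 (V 25) (V 8)) (N 16 (N 17 (N 15 (N 8 
(V 17) (N 3 (N 9 (V 41) (L [(0,13),(1,15),(2,7),(8,13),(13,6)])) (V 27))) (V 5)) (N 15 (V 31) (N 8 
(N 3 (N 9 (L [(0,14),(1,11),(2,11),(8,12),(13,6)]) (V 2)) (V 6)) (V 10)))) (V 28))))) (V 0)) (N 11 
(V 36) (N 13 (N 12 (N 14 (N 16 (N 17 (N 15 (V 26) (N 8 (N 3 (N 9 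
(L [(0,11),(1,16),(2,8),(8,11),(13,8)]) (V 38)) (V 18)) (V 17))) (N 15 (V 8) (V 29))) (V 21)) (N 16 
(V 5) (N 17 (N 15 (V 26) (N 8 (V 10) (N 3 (N 9 (V 2) (L [(0,12),(1,12),(2,12),(8,10),(13,8)])) (V 6)
))) (N 15 (V 8) (V 29))))) (V 16)) (N 12 (V 30) (N 14 (N 16 (V 28) (N 17 (N 15 (V 29) (V 19)) (N 15 
(N 8 (V 28) (N 3 (V 31) (N 9 (V 2) (L [(0,10),(1,14),(2,11),(8,9),(10,10)])))) (V 26)))) (N 16 
(V 34) (V 25))))))) (N 10 (N 11 (V 43) (V 0)) (N 11 (N 13 (N 12 (V 49) (N 14 (N 16 (N 17 (N 15 (N 8 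
(V 9) (V 53)) (N 8 (V 10) (N 3 (V 53) (N 9 (L [(0,11),(1,8),(2,11),(5,7),(8,7),(10,5),(25,5)]) 
(V 47))))) (N 15 (V 43) (N 8 (V 10) (N 3 (V 53) (N 9 (V 11) 
(L [(0,14),(1,8),(2,8),(5,7),(8,7),(25,5),(28,5)])))))) (V 52)) (N 16 (N 17 (N 15 (N 8 (V 0) (V 28))
 (N 8 (V 29) (V 50))) (N 15 (V 43) (N 8 (N 3 (V 27) (N 9 (V 11) 
(L [(0,11),(1,11),(2,8),(5,7),(8,7),(10,5),(28,5)]))) (V 50)))) (N 17 (N 15 (N 8 (V 10) (N 3 (N 9 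
(V 32) (L [(0,12),(1,7),(2,7),(5,7),(8,7),(25,7),(28,7)])) (V 6))) (N 8 (V 29) (V 50))) (N 15 (V 43)
 (N 8 (N 3 (V 29) (V 28)) (V 50))))))) (N 12 (V 1) (V 52))) (V 46))))) (N 4 (N 6 (V 36) (N 10 (N 11 
(N 13 (N 12 (V 52) (V 30)) (N 12 (N 14 (N 16 (N 17 (N 15 (N 8 (V 10) (N 3 (N 9 (V 38) 
(L [(0,5),(1,10),(2,7),(5,10),(7,5),(11,8),(14,9)])) (V 27))) (V 5)) (N 15 (V 49) (N 8 (N 3 (V 15) 
(V 31)) (V 14)))) (V 34)) (N 16 (V 52) (N 17 (N 15 (N 8 (V 17) (V 53)) (V 5)) (N 15 (V 49) (N 8 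
(V 10) (N 3 (V 53) (N 9 (V 41) (L [(0,5),(1,9),(2,8),(5,10),(7,5),(10,8),(14,9)])))))))) (V 49))) 
(N 13 (N 12 (V 52) (V 30)) (N 12 (N 14 (N 16 (N 17 (N 15 (N 8 (V 50) (N 3 (V 31) (V 29))) (V 43)) 
(N 15 (N 8 (V 50) (V 29)) (N 8 (N 3 (V 15) (N 9 (L [(0,5),(1,8),(2,11),(5,11),(7,5),(26,7),(29,7)]) 
(V 32))) (V 10)))) (V 34)) (N 16 (V 52) (N 17 (N 15 (N 8 (N 3 (N 9 
(L [(0,5),(1,9),(2,12),(5,13),(7,5),(26,5),(29,5)]) (V 11)) (V 16)) (V 10)) (V 43)) (N 15 (N 8 (N 3 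
(N 9 (V 47) (L [(0,5),(1,12),(2,12),(5,10),(7,5),(11,5),(26,5)])) (V 53)) (V 10)) (N 8 (V 53) (V 17)
))))) (V 49)))) (N 11 (V 22) (N 13 (N 12 (V 52) (V 30)) (N 12 (N 14 (N 16 (V 28) (N 17 (N 15 (V 26) 
(N 8 (N 3 (V 27) (V 27)) (V 17))) (N 15 (N 8 (N 3 (N 9 (V 45) 
(L [(0,5),(1,12),(2,8),(5,13),(7,5),(11,5),(14,6)])) (V 27)) (N 3 (V 31) (V 28))) (V 29)))) (N 16 
(N 17 (N 15 (V 26) (N 8 (N 3 (V 27) (N 9 (V 42) (L [(0,5),(1,8),(2,12),(5,9),(7,5),(10,5),(14,10)]))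
) (N 3 (V 29) (V 42)))) (N 15 (V 17) (V 29))) (V 25))) (V 49)))))) (N 6 (V 39) (V 30))))) (N 0 (N 2 
(N 4 (N 6 (N 10 (N 11 (V 46) (N 13 (N 12 (V 49) (N 14 (N 16 (N 17 (N 15 (V 29) (V 28)) (N 15 (N 8 
(V 50) (N 3 (V 27) (N 9 (V 11) (L [(0,9),(1,8),(2,13),(8,5),(10,8),(17,6),(28,5)])))) (V 26))) (N 17
 (N 15 (V 29) (N 8 (N 3 (N 9 (V 45) (L [(0,8),(1,8),(2,10),(8,5),(11,9),(26,6),(32,8)])) (V 27)) 
(V 22))) (N 15 (N 8 (V 50) (N 3 (V 45) (V 28))) (V 26)))) (N 16 (V 4) (N 17 (N 15 (V 29) (V 25)) 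
(N 15 (N 8 (N 3 (V 50) (N 9 (L [(0,11),(1,8),(2,11),(8,5),(10,8),(17,6),(26,5)]) (V 2))) (V 10)) 
(V 26)))))) (N 12 (N 14 (N 16 (N 17 (N 15 (N 8 (V 50) (V 8)) (V 28)) (N 15 (V 37) (N 8 (N 3 (V 27) 
(V 27)) (V 10)))) (N 17 (N 15 (V 26) (N 8 (N 3 (V 27) (V 27)) (V 22))) (N 15 (V 37) (V 29)))) (N 16 
(N 17 (N 15 (N 8 (N 3 (V 50) (V 23)) (V 10)) (N 8 (V 53) (N 3 (V 29) (V 42)))) (N 15 (V 37) (N 8 
(V 53) (N 3 (N 9 (V 35) (L [(0,15),(1,8),(2,15),(8,8),(11,8)])) (V 42))))) (N 17 (N 15 (N 8 (V 10) 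
(V 10)) (V 25)) (N 15 (V 37) (N 8 (V 53) (V 20)))))) (V 52)))) (N 11 (V 22) (V 43))) (N 10 (N 11 
(N 13 (N 12 (N 14 (N 16 (N 17 (N 15 (V 26) (N 8 (N 3 (N 9 (L [(0,15),(1,10),(2,10),(11,10),(17,9)]) 
(V 38)) (V 19)) (V 14))) (N 15 (V 31) (V 29))) (V 34)) (N 16 (V 4) (N 17 (N 15 (V 26) (N 8 (V 10) 
(N 3 (N 9 (V 2) (L [(0,11),(1,10),(2,14),(11,10),(14,9)])) (V 39)))) (N 15 (V 31) (V 29))))) (V 13))
 (N 12 (V 33) (N 14 (N 16 (V 28) (N 17 (N 15 (V 29) (V 18)) (N 15 (N 8 (V 28) (N 3 (V 6) (N 9 (V 2) 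
(L [(0,13),(1,12),(2,13),(14,8),(17,8)])))) (V 26)))) (N 16 (V 15) (V 25))))) (V 36)) (N 11 (V 22) 
(N 13 (N 12 (N 14 (N 16 (V 28) (N 17 (N 15 (V 29) (V 31)) (N 15 (N 8 (N 3 (V 6) (N 9 
(L [(0,14),(1,14),(2,14),(14,6),(17,6)]) (V 2))) (V 29)) (V 26)))) (N 16 (V 40) (V 25))) (V 13)) 
(N 12 (V 33) (N 14 (N 16 (V 25) (V 40)) (N 16 (N 17 (N 15 (N 8 (V 14) (N 3 (N 9 (V 41) 
(L [(0,14),(1,10),(2,11),(11,10),(17,9)])) (V 19))) (V 4)) (N 15 (V 37) (N 8 (N 3 (N 9 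
(L [(0,10),(1,10),(2,15),(11,10),(14,9)]) (V 2)) (V 39)) (V 10)))) (V 28)))))))) (N 6 (V 15) (N 10 
(N 11 (N 13 (N 12 (N 14 (N 16 (V 25) (V 22)) (N 16 (N 17 (N 15 (V 26) (N 8 (V 29) (N 3 (N 9 (V 2) 
(L [(0,11),(1,10),(2,14),(8,9),(11,10)])) (V 34)))) (N 15 (V 31) (V 29))) (V 28))) (V 13)) (N 12 
(V 33) (N 14 (N 16 (V 28) (N 17 (N 15 (N 8 (V 10) (N 3 (V 6) (N 9 (V 2) 
(L [(0,12),(1,12),(2,12),(8,10),(17,8)])))) (V 18)) (N 15 (V 4) (N 8 (N 3 (V 21) (N 9 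
(L [(0,8),(1,11),(2,16),(8,11),(17,8)]) (V 41))) (V 14))))) (N 16 (V 7) (V 25))))) (V 0)) (N 11 
(V 39) (N 13 (N 12 (N 14 (N 16 (N 17 (N 15 (V 29) (V 7)) (N 15 (N 8 (N 3 (V 6) (N 9 
(L [(0,11),(1,14),(2,11),(8,12),(17,6)]) (V 2))) (V 10)) (V 26))) (V 4)) (N 16 (V 34) (N 17 (N 15 
(V 29) (V 7)) (N 15 (N 8 (V 14) (N 3 (V 27) (N 9 (V 38) (L [(0,7),(1,13),(2,15),(8,13),(17,6)])))) 
(V 26))))) (V 13)) (N 12 (V 33) (N 14 (N 16 (V 25) (N 17 (N 15 (V 26) (N 8 (N 3 (V 6) (N 9 (V 20) 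
(L [(0,14),(1,13),(2,12),(8,9),(26,6)]))) (V 17))) (N 15 (V 37) (V 29)))) (N 16 (N 17 (N 15 (V 26) 
(N 8 (N 3 (N 9 (L [(0,10),(1,10),(2,15),(8,9),(11,10)]) (V 2)) (V 45)) (V 28))) (N 15 (V 37) (V 29))
) (V 28))))))))) (N 4 (N 6 (V 30) (V 9)) (N 6 (N 10 (N 11 (N 13 (N 12 (N 14 (N 16 (N 17 (N 15 (N 8 
(V 10) (V 10)) (V 37)) (N 15 (V 31) (N 8 (V 23) (V 14)))) (N 17 (N 15 (N 8 (V 10) (N 3 (V 6) (N 9 
(V 2) (L [(0,12),(1,13),(2,14),(5,6),(13,9)])))) (V 37)) (N 15 (V 31) (N 8 (V 50) (V 14))))) (N 16 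
(V 40) (N 17 (N 15 (N 8 (V 17) (V 20)) (V 37)) (N 15 (V 31) (N 8 (N 3 (V 27) (V 27)) (V 10)))))) 
(V 1)) (N 12 (V 43) (N 14 (N 16 (V 25) (N 17 (N 15 (V 26) (N 8 (N 3 (V 27) (N 9 (V 20) 
(L [(0,8),(1,9),(2,8),(5,6),(10,9),(17,8),(26,6)]))) (V 14))) (N 15 (V 9) (V 29)))) (N 16 (N 17 
(N 15 (V 26) (N 8 (N 3 (V 27) (N 9 (V 42) (L [(0,8),(1,9),(2,8),(5,6),(10,5),(13,6),(17,12)]))) (N 3
 (V 29) (V 34)))) (N 15 (V 9) (V 29))) (V 28))))) (V 0)) (N 11 (N 13 (N 12 (V 52) (V 1)) (N 12 (N 14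
 (N 16 (N 17 (N 15 (V 26) (N 8 (V 10) (N 3 (N 9 (V 2) 
(L [(0,8),(1,9),(2,10),(5,6),(11,8),(13,8),(25,5)])) (V 50)))) (N 15 (V 25) (V 29))) (V 9)) (N 16 
(N 17 (N 15 (V 29) (N 8 (N 3 (V 28) (V 45)) (V 50))) (N 15 (N 8 (V 0) (N 3 (V 6) (N 9 
(L [(0,7),(1,12),(2,7),(5,6),(13,8),(25,6),(31,8)]) (V 45)))) (V 26))) (N 17 (N 15 (V 26) (N 8 (N 3 
(N 9 (L [(0,10),(1,9),(2,8),(5,6),(11,8),(13,8),(29,5)]) (V 11)) (V 45)) (V 50))) (N 15 (V 28) 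
(V 29))))) (V 49))) (N 13 (N 12 (N 14 (N 16 (V 25) (V 9)) (N 16 (N 17 (N 15 (V 29) (N 8 (N 3 (V 28) 
(V 45)) (N 3 (V 27) (N 9 (L [(0,7),(1,11),(2,7),(5,6),(10,5),(13,8),(17,10)]) (V 45))))) (N 15 (N 8 
(V 14) (N 3 (V 27) (N 9 (L [(0,7),(1,11),(2,7),(5,6),(10,11),(17,6),(25,6)]) (V 20)))) (V 26))) 
(V 28))) (V 1)) (N 12 (V 46) (N 14 (N 16 (N 17 (N 15 (N 8 (V 10) (V 10)) (V 31)) (N 15 (V 37) (N 8 
(V 20) (V 17)))) (N 17 (N 15 (N 8 (V 28) (N 3 (V 36) (V 50))) (V 31)) (N 15 (V 37) (N 8 (N 3 (V 6) 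
(N 9 (L [(0,14),(1,13),(2,12),(5,6),(13,9)]) (V 41))) (V 17))))) (N 16 (V 34) (N 17 (N 15 (N 8 
(V 14) (V 23)) (V 31)) (N 15 (V 37) (N 8 (V 10) (N 3 (V 27) (V 27))))))))))) (V 36)))) (N 2 (V 12) 
(N 4 (N 6 (V 36) (N 10 (N 11 (N 13 (N 12 (N 14 (N 16 (N 17 (N 15 (N 8 (V 9) (N 3 (V 27) (V 27))) 
(V 5)) (N 15 (V 31) (N 8 (V 23) (V 14)))) (V 34)) (N 16 (V 8) (N 17 (N 15 (N 8 (V 17) (V 20)) (V 5))
 (N 15 (V 31) (N 8 (V 10) (V 10)))))) (N 14 (N 16 (V 25) (V 52)) (N 16 (N 17 (N 15 (N 8 (V 17) 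
(V 28)) (N 8 (V 29) (N 3 (V 53) (V 39)))) (N 15 (V 31) (N 8 (N 3 (V 27) (N 9 (V 11) 
(L [(0,5),(1,12),(2,8),(5,10),(10,5),(17,9),(28,5)]))) (V 10)))) (V 28)))) (N 12 (V 16) (N 14 (N 16 
(V 28) (N 17 (N 15 (V 29) (V 9)) (N 15 (N 8 (N 3 (V 15) (V 29)) (N 3 (N 9 
(L [(0,5),(1,7),(2,7),(5,14),(11,5),(14,8),(17,8)]) (V 42)) (V 27))) (V 26)))) (N 16 (N 17 (N 15 
(V 29) (V 9)) (N 15 (N 8 (V 17) (N 3 (N 9 (L [(0,5),(1,7),(2,7),(5,10),(11,11),(14,8),(25,6)]) 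
(V 23)) (V 27))) (V 26))) (V 25))))) (N 13 (N 12 (N 14 (N 16 (N 17 (N 15 (V 29) (V 43)) (N 15 (N 8 
(V 50) (V 29)) (V 26))) (V 34)) (N 16 (V 8) (N 17 (N 15 (V 29) (V 43)) (N 15 (N 8 (N 3 (N 9 (V 48) 
(L [(0,5),(1,8),(2,12),(5,13),(11,5),(17,6),(26,5)])) (V 27)) (V 10)) (V 26))))) (V 9)) (N 12 (V 16)
 (N 14 (N 16 (V 25) (V 46)) (N 16 (N 17 (N 15 (N 8 (N 3 (V 27) (N 9 (V 51) 
(L [(0,5),(1,8),(2,12),(5,10),(10,5),(17,9),(26,5)]))) (V 10)) (N 8 (V 53) (V 28))) (N 15 (V 37) 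
(N 8 (V 53) (V 28)))) (V 28)))))) (N 11 (V 22) (N 13 (N 12 (N 14 (N 16 (V 28) (N 17 (N 15 (V 29) 
(N 8 (N 3 (N 9 (V 23) (L [(0,5),(1,8),(2,8),(5,12),(11,9),(14,6),(26,6)])) (V 27)) (V 17))) (N 15 
(N 8 (N 3 (N 9 (V 45) (L [(0,5),(1,8),(2,8),(5,16),(11,5),(14,6),(17,6)])) (V 27)) (N 3 (V 31) 
(V 28))) (V 26)))) (N 16 (V 9) (V 25))) (N 14 (N 16 (N 17 (N 15 (V 29) (V 49)) (N 15 (N 8 (N 3 (N 9 
(V 11) (L [(0,5),(1,12),(2,8),(5,13),(11,5),(17,6),(28,5)])) (V 27)) (V 10)) (V 26))) (V 40)) (N 16 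
(V 5) (N 17 (N 15 (V 29) (V 49)) (N 15 (N 8 (V 14) (V 29)) (V 26)))))) (N 12 (V 16) (N 14 (N 16 
(N 17 (N 15 (N 8 (N 3 (V 27) (V 27)) (V 9)) (V 8)) (N 15 (V 37) (N 8 (V 20) (V 17)))) (V 40)) (N 16 
(V 5) (N 17 (N 15 (N 8 (V 14) (V 23)) (V 8)) (N 15 (V 37) (N 8 (V 10) (V 10))))))))))) (N 6 (N 10 
(N 11 (N 13 (N 12 (N 14 (N 16 (N 17 (N 15 (N 8 (V 10) (N 3 (V 27) (V 27))) (N 8 (N 3 (N 9 
(L [(0,13),(1,12),(2,14),(5,6),(17,9)]) (V 38)) (V 6)) (V 14))) (N 15 (V 31) (N 8 (V 23) (V 14)))) 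
(V 34)) (N 16 (V 40) (N 17 (N 15 (N 8 (V 17) (V 20)) (N 8 (V 29) (N 3 (V 53) (V 39)))) (N 15 (V 31) 
(N 8 (V 10) (V 10)))))) (V 1)) (N 12 (V 43) (N 14 (N 16 (V 25) (N 17 (N 15 (V 29) (V 9)) (N 15 (N 8 
(N 3 (V 42) (V 29)) (N 3 (N 9 (L [(0,11),(1,7),(2,7),(5,6),(11,5),(13,10),(17,8)]) (V 42)) (V 27))) 
(V 26)))) (N 16 (N 17 (N 15 (V 29) (V 9)) (N 15 (N 8 (V 17) (N 3 (N 9 
(L [(0,11),(1,7),(2,7),(5,6),(11,11),(13,6),(25,6)]) (V 23)) (V 27))) (V 26))) (V 28))))) (V 0)) 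
(N 11 (N 13 (N 12 (V 52) (V 1)) (N 12 (N 14 (N 16 (V 28) (N 17 (N 15 (N 8 (N 3 (V 42) (N 9 
(L [(0,9),(1,8),(2,10),(5,6),(10,8),(13,8),(29,5)]) (V 11))) (V 53)) (V 9)) (N 15 (N 8 (N 3 (V 42) 
(V 29)) (V 53)) (N 8 (V 10) (N 3 (V 53) (N 9 (V 2) 
(L [(0,9),(1,10),(2,8),(5,6),(10,8),(13,8),(25,5)]))))))) (N 16 (N 17 (N 15 (V 29) (V 9)) (N 15 (N 8
 (V 0) (N 3 (N 9 (L [(0,12),(1,7),(2,7),(5,6),(13,8),(25,6),(31,8)]) (V 42)) (V 6))) (V 26))) (V 25)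
)) (V 49))) (N 13 (N 12 (N 14 (N 16 (V 28) (N 17 (N 15 (V 29) (N 8 (N 3 (N 9 (V 23) 
(L [(0,9),(1,8),(2,8),(5,6),(11,9),(13,8),(26,6)])) (V 27)) (V 17))) (N 15 (N 8 (N 3 (N 9 (V 45) 
(L [(0,9),(1,8),(2,8),(5,6),(11,5),(13,12),(17,6)])) (V 27)) (N 3 (V 31) (V 28))) (V 26)))) (N 16 
(V 9) (V 25))) (V 1)) (N 12 (V 46) (N 14 (N 16 (N 17 (N 15 (N 8 (N 3 (V 27) (V 27)) (V 10)) (N 8 
(V 53) (V 17))) (N 15 (V 37) (N 8 (V 20) (V 17)))) (V 40)) (N 16 (V 34) (N 17 (N 15 (N 8 (V 14) 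
(V 23)) (N 8 (V 10) (N 3 (N 9 (V 2) (L [(0,13),(1,14),(2,12),(5,6),(17,9)])) (V 6)))) (N 15 (V 37) 
(N 8 (V 10) (V 10)))))))))) (V 30)))))) (N 7 (N 0 (N 2 (V 18) (N 4 (N 6 (N 10 (N 11 (V 43) (V 39)) 
(N 11 (N 13 (N 12 (N 14 (N 16 (N 17 (N 15 (N 8 (N 3 (V 27) (N 9 
(L [(0,10),(1,5),(2,7),(5,5),(7,10),(10,8),(16,9)]) (V 32))) (V 53)) (V 37)) (N 15 (V 43) (N 8 
(V 10) (N 3 (V 18) (V 40))))) (V 7)) (N 16 (V 46) (N 17 (N 15 (N 8 (V 39) (V 20)) (V 37)) (N 15 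
(V 43) (N 8 (N 3 (N 9 (L [(0,9),(1,5),(2,8),(5,5),(7,10),(11,8),(16,9)]) (V 35)) (V 27)) (V 50))))))
 (N 14 (N 16 (N 17 (N 15 (N 8 (V 20) (V 53)) (V 37)) (N 15 (V 43) (N 8 (V 10) (N 3 (V 18) (N 9 
(V 11) (L [(0,9),(1,5),(2,12),(5,5),(7,13),(25,5),(28,5)])))))) (V 52)) (N 16 (N 17 (N 15 (N 8 
(V 39) (V 28)) (V 37)) (N 15 (V 43) (N 8 (N 3 (V 27) (N 9 (V 11) 
(L [(0,12),(1,5),(2,12),(5,5),(7,10),(10,5),(28,5)]))) (V 50)))) (N 17 (N 15 (N 8 (V 10) (N 3 (N 9 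
(V 32) (L [(0,8),(1,5),(2,11),(5,5),(7,11),(25,7),(28,7)])) (V 19))) (V 37)) (N 15 (V 43) (N 8 (N 3 
(V 40) (V 28)) (V 50))))))) (N 12 (V 13) (N 14 (N 16 (V 28) (N 17 (N 15 (V 26) (N 8 (V 10) (N 3 
(V 29) (V 28)))) (N 15 (N 8 (N 3 (N 9 (V 45) (L [(0,8),(1,5),(2,12),(5,5),(7,9),(11,5),(16,10)])) 
(V 27)) (V 53)) (V 29)))) (N 16 (N 17 (N 15 (V 26) (N 8 (N 3 (V 27) (N 9 (V 42) 
(L [(0,12),(1,5),(2,8),(5,5),(7,13),(10,5),(16,6)]))) (V 50))) (N 15 (V 20) (V 29))) (V 25))))) 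
(V 46))) (V 9)) (N 6 (N 10 (N 11 (N 13 (N 12 (N 14 (N 16 (N 17 (N 15 (N 8 (V 10) (V 10)) (V 37)) 
(N 15 (V 4) (N 8 (V 23) (V 14)))) (V 7)) (N 16 (V 40) (N 17 (N 15 (N 8 (V 17) (V 20)) (V 37)) (N 15 
(V 4) (N 8 (N 3 (V 27) (V 27)) (V 9)))))) (N 14 (N 16 (V 25) (V 52)) (N 16 (N 17 (N 15 (N 8 (V 17) 
(V 28)) (V 37)) (N 15 (V 4) (N 8 (N 3 (V 27) (N 9 (V 11) 
(L [(0,8),(1,5),(2,12),(5,13),(10,5),(13,6),(28,5)]))) (V 10)))) (V 28)))) (N 12 (V 13) (N 14 (N 16 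
(V 25) (N 17 (N 15 (V 26) (N 8 (N 3 (V 27) (N 9 (V 20) 
(L [(0,8),(1,5),(2,8),(5,12),(10,9),(16,6),(26,6)]))) (V 14))) (N 15 (V 9) (V 29)))) (N 16 (N 17 
(N 15 (V 26) (N 8 (N 3 (V 27) (N 9 (V 42) (L [(0,8),(1,5),(2,8),(5,16),(10,5),(13,6),(16,6)]))) (N 3
 (V 29) (V 34)))) (N 15 (V 9) (V 29))) (V 28))))) (N 13 (N 12 (N 14 (N 16 (N 17 (N 15 (V 29) (V 43))
 (N 15 (N 8 (V 50) (V 29)) (V 26))) (N 17 (N 15 (V 29) (V 20)) (N 15 (N 8 (V 50) (V 29)) (V 26)))) 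
(N 16 (V 40) (N 17 (N 15 (V 29) (V 43)) (N 15 (N 8 (N 3 (N 9 (V 48) 
(L [(0,12),(1,5),(2,8),(5,10),(11,5),(13,9),(26,5)])) (V 27)) (V 10)) (V 26))))) (V 9)) (N 12 (V 13)
 (N 14 (N 16 (V 25) (V 46)) (N 16 (N 17 (N 15 (N 8 (N 3 (V 27) (N 9 (V 51) 
(L [(0,12),(1,5),(2,8),(5,13),(10,5),(13,6),(26,5)]))) (V 10)) (V 31)) (N 15 (V 7) (N 8 (V 53) 
(V 28)))) (V 28)))))) (N 11 (V 19) (N 13 (N 12 (N 14 (N 16 (V 25) (V 9)) (N 16 (N 17 (N 15 (V 26) 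
(N 8 (N 3 (V 28) (V 12)) (N 3 (V 27) (N 9 (L [(0,7),(1,5),(2,7),(5,14),(10,5),(13,8),(16,8)]) (V 45)
)))) (N 15 (N 8 (V 14) (N 3 (V 27) (N 9 (L [(0,7),(1,5),(2,7),(5,10),(10,11),(16,8),(25,6)]) (V 20))
)) (V 29))) (V 28))) (N 14 (N 16 (N 17 (N 15 (V 29) (V 49)) (N 15 (N 8 (N 3 (N 9 (V 11) 
(L [(0,8),(1,5),(2,12),(5,10),(11,5),(13,9),(28,5)])) (V 27)) (V 10)) (V 26))) (N 17 (N 15 (V 29) 
(V 14)) (N 15 (N 8 (V 28) (N 3 (V 36) (V 50))) (V 26)))) (N 16 (V 34) (N 17 (N 15 (V 29) (V 49)) 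
(N 15 (N 8 (V 14) (V 29)) (V 26)))))) (N 12 (V 13) (N 14 (N 16 (N 17 (N 15 (N 8 (V 10) (V 10)) 
(V 31)) (N 15 (V 7) (N 8 (V 20) (V 17)))) (V 4)) (N 16 (V 34) (N 17 (N 15 (N 8 (V 14) (V 23)) (V 31)
) (N 15 (V 7) (N 8 (V 9) (N 3 (V 27) (V 27))))))))))) (N 10 (N 11 (N 13 (N 12 (V 52) (V 33)) (N 12 
(N 14 (N 16 (V 28) (N 17 (N 15 (V 26) (N 8 (N 3 (V 27) (V 27)) (V 14))) (N 15 (N 8 (N 3 (N 9 (V 45) 
(L [(0,12),(1,5),(2,8),(5,9),(7,5),(11,5),(16,10)])) (V 27)) (N 3 (V 45) (V 28))) (V 29)))) (N 16 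
(N 17 (N 15 (V 26) (N 8 (N 3 (V 27) (N 9 (V 42) (L [(0,8),(1,5),(2,12),(5,13),(7,5),(10,5),(16,6)]))
) (N 3 (V 29) (V 34)))) (N 15 (V 14) (V 29))) (V 25))) (V 49))) (N 13 (N 12 (V 52) (V 33)) (N 12 
(N 14 (N 16 (N 17 (N 15 (N 8 (V 50) (V 14)) (V 31)) (N 15 (V 49) (N 8 (N 3 (N 9 
(L [(0,11),(1,5),(2,8),(5,11),(7,5),(26,7),(29,7)]) (V 35)) (V 12)) (V 10)))) (V 46)) (N 16 (N 17 
(N 15 (N 8 (N 3 (V 50) (N 9 (V 44) (L [(0,12),(1,5),(2,12),(5,10),(7,5),(10,5),(26,5)]))) (V 10)) 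
(V 31)) (N 15 (V 49) (N 8 (V 53) (V 28)))) (N 17 (N 15 (N 8 (N 3 (V 13) (N 9 
(L [(0,12),(1,5),(2,9),(5,13),(7,5),(26,5),(29,5)]) (V 11))) (V 10)) (V 31)) (N 15 (V 49) (N 8 
(V 53) (N 3 (V 28) (V 34))))))) (V 49)))) (N 11 (V 19) (N 13 (N 12 (V 52) (V 33)) (N 12 (N 14 (N 16 
(N 17 (N 15 (N 8 (V 10) (N 3 (N 9 (V 38) (L [(0,8),(1,5),(2,9),(5,10),(7,5),(11,8),(16,9)])) (V 50))
) (V 31)) (N 15 (V 49) (N 8 (N 3 (V 34) (V 12)) (V 17)))) (V 4)) (N 16 (V 52) (N 17 (N 15 (N 8 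
(V 14) (V 50)) (V 31)) (N 15 (V 49) (N 8 (V 10) (N 3 (V 27) (N 9 (V 41) 
(L [(0,7),(1,5),(2,10),(5,10),(7,5),(10,8),(16,9)])))))))) (V 49)))))))) (N 2 (N 4 (N 6 (N 10 (N 11 
(V 43) (N 13 (N 12 (V 52) (V 16)) (N 12 (N 14 (N 16 (N 17 (N 15 (N 8 (V 50) (V 53)) (V 31)) (N 15 
(V 25) (N 8 (V 10) (V 10)))) (N 17 (N 15 (N 8 (V 50) (V 53)) (V 31)) (N 15 (N 8 (V 50) (V 53)) (N 8 
(V 28) (N 3 (V 49) (N 9 (V 2) (L [(0,8),(1,15),(2,15),(5,8),(10,8)]))))))) (N 16 (N 17 (N 15 (V 29) 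
(V 31)) (N 15 (N 8 (N 3 (V 28) (V 29)) (V 10)) (V 26))) (N 17 (N 15 (N 8 (N 3 (V 27) (V 27)) (V 10))
 (V 31)) (N 15 (V 28) (N 8 (V 53) (V 50)))))) (V 49)))) (N 11 (N 13 (N 12 (V 52) (V 16)) (N 12 (N 14
 (N 16 (N 17 (N 15 (V 26) (N 8 (V 10) (N 3 (N 9 (V 2) 
(L [(0,8),(1,9),(2,13),(5,5),(11,8),(16,6),(25,5)])) (V 50)))) (N 15 (V 25) (V 29))) (V 7)) (N 16 
(N 17 (N 15 (V 26) (N 8 (N 3 (V 28) (V 45)) (V 50))) (N 15 (N 8 (N 3 (V 28) (V 45)) (N 3 (V 22) (N 9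
 (L [(0,8),(1,8),(2,10),(5,5),(10,9),(25,6),(31,8)]) (V 45)))) (V 29))) (N 17 (N 15 (V 26) (N 8 (N 3
 (N 9 (L [(0,8),(1,11),(2,11),(5,5),(11,8),(16,6),(29,5)]) (V 11)) (V 45)) (V 50))) (N 15 (V 28) 
(V 29))))) (V 49))) (V 46))) (V 21)) (N 6 (N 10 (N 11 (N 13 (N 12 (N 14 (N 16 (N 17 (N 15 (V 29) 
(V 37)) (N 15 (N 8 (N 3 (V 36) (N 9 (L [(0,10),(1,15),(2,10),(10,10),(16,9)]) (V 2))) (V 10)) (V 26)
)) (V 5)) (N 16 (V 40) (N 17 (N 15 (V 29) (V 37)) (N 15 (N 8 (V 17) (N 3 (V 22) (N 9 (V 38) 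
(L [(0,10),(1,11),(2,14),(10,10),(13,9)])))) (V 26))))) (V 16)) (N 12 (V 30) (N 14 (N 16 (V 25) 
(V 34)) (N 16 (N 17 (N 15 (V 26) (N 8 (N 3 (N 9 (L [(0,14),(1,14),(2,14),(13,6),(16,6)]) (V 2)) 
(V 6)) (V 28))) (N 15 (V 37) (V 29))) (V 28))))) (V 39)) (N 11 (V 19) (N 13 (N 12 (N 14 (N 16 (V 25)
 (V 21)) (N 16 (N 17 (N 15 (V 26) (N 8 (V 29) (N 3 (N 9 (V 2) 
(L [(0,12),(1,13),(2,13),(13,8),(16,8)])) (V 6)))) (N 15 (V 12) (V 29))) (V 28))) (V 16)) (N 12 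
(V 30) (N 14 (N 16 (V 28) (N 17 (N 15 (N 8 (V 10) (N 3 (V 36) (N 9 (V 2) 
(L [(0,10),(1,14),(2,11),(10,10),(16,9)])))) (V 31)) (N 15 (V 5) (N 8 (N 3 (V 22) (N 9 
(L [(0,10),(1,10),(2,15),(10,10),(13,9)]) (V 41))) (V 17))))) (N 16 (V 34) (V 25))))))) (N 10 (N 11 
(N 13 (N 12 (N 14 (N 16 (V 28) (N 17 (N 15 (V 29) (V 37)) (N 15 (N 8 (V 28) (N 3 (V 22) (N 9 (V 2) 
(L [(0,10),(1,11),(2,14),(5,9),(10,10)])))) (V 26)))) (N 16 (V 16) (V 25))) (V 33)) (N 12 (V 1) 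
(N 14 (N 16 (N 17 (N 15 (V 26) (N 8 (N 3 (N 9 (L [(0,14),(1,11),(2,11),(5,12),(16,6)]) (V 38)) (V 6)
) (V 14))) (N 15 (V 4) (V 29))) (V 40)) (N 16 (V 7) (N 17 (N 15 (V 26) (N 8 (V 29) (N 3 (N 9 (V 2) 
(L [(0,13),(1,7),(2,15),(5,13),(16,6)])) (V 36)))) (N 15 (V 4) (V 29))))))) (V 39)) (N 11 (V 19) 
(N 13 (N 12 (N 14 (N 16 (V 25) (V 4)) (N 16 (N 17 (N 15 (N 8 (V 14) (N 3 (N 9 (V 41) 
(L [(0,12),(1,12),(2,12),(5,10),(16,8)])) (V 6))) (V 7)) (N 15 (V 12) (N 8 (N 3 (N 9 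
(L [(0,11),(1,8),(2,16),(5,11),(16,8)]) (V 2)) (V 36)) (V 28)))) (V 28))) (V 33)) (N 12 (V 1) (N 14 
(N 16 (V 28) (N 17 (N 15 (V 29) (V 31)) (N 15 (N 8 (N 3 (V 22) (N 9 
(L [(0,10),(1,10),(2,15),(5,9),(10,10)]) (V 2))) (V 29)) (V 26)))) (N 16 (N 17 (N 15 (V 29) (V 31)) 
(N 15 (N 8 (V 14) (N 3 (N 9 (L [(0,13),(1,14),(2,12),(5,9),(25,6)]) (V 23)) (V 6))) (V 26))) (V 25))
))))))) (V 9))) (N 0 (N 2 (N 4 (N 6 (N 10 (N 11 (V 43) (V 1)) (N 11 (N 13 (N 12 (V 49) (N 14 (N 16 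
(N 17 (N 15 (N 8 (V 9) (V 53)) (N 8 (V 10) (N 3 (V 53) (N 9 
(L [(0,9),(1,13),(2,12),(5,5),(8,5),(10,5),(25,5)]) (V 47))))) (N 15 (V 43) (N 8 (V 10) (N 3 (V 16) 
(N 9 (V 11) (L [(0,9),(1,16),(2,9),(5,5),(8,5),(25,5),(28,5)])))))) (V 52)) (N 16 (N 17 (N 15 (N 8 
(V 1) (V 28)) (N 8 (V 29) (V 50))) (N 15 (V 43) (N 8 (N 3 (V 27) (N 9 (V 11) 
(L [(0,12),(1,13),(2,9),(5,5),(8,5),(10,5),(28,5)]))) (V 50)))) (N 17 (N 15 (N 8 (V 10) (N 3 (N 9 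
(V 32) (L [(0,8),(1,14),(2,8),(5,5),(8,5),(25,7),(28,7)])) (V 19))) (N 8 (V 29) (V 50))) (N 15 
(V 43) (N 8 (N 3 (V 29) (V 28)) (V 50))))))) (N 12 (V 0) (V 52))) (V 46))) (N 10 (N 11 (V 43) (N 13 
(N 12 (V 52) (V 13)) (N 12 (N 14 (N 16 (N 17 (N 15 (N 8 (V 50) (V 53)) (N 8 (V 29) (N 3 (N 9 (V 2) 
(L [(0,15),(1,8),(2,15),(5,8),(11,8)])) (V 52)))) (N 15 (V 25) (N 8 (V 10) (V 10)))) (V 34)) (N 16 
(N 17 (N 15 (V 29) (N 8 (V 53) (V 50))) (N 15 (N 8 (N 3 (V 28) (V 29)) (V 10)) (V 26))) (N 17 (N 15 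
(N 8 (N 3 (V 27) (V 27)) (V 10)) (N 8 (V 53) (V 50))) (N 15 (V 28) (N 8 (V 53) (V 50)))))) (V 49))))
 (N 11 (N 13 (N 12 (V 52) (V 13)) (N 12 (N 14 (N 16 (V 28) (N 17 (N 15 (N 8 (N 3 (V 42) (N 9 
(L [(0,11),(1,8),(2,11),(5,5),(10,8),(14,6),(29,5)]) (V 11))) (V 53)) (V 8)) (N 15 (N 8 (N 3 (V 42) 
(V 29)) (V 53)) (N 8 (V 10) (N 3 (V 53) (N 9 (V 2) 
(L [(0,13),(1,8),(2,9),(5,5),(10,8),(14,6),(25,5)]))))))) (N 16 (N 17 (N 15 (V 29) (V 8)) (N 15 (N 8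
 (N 3 (V 42) (V 29)) (N 3 (N 9 (L [(0,10),(1,8),(2,8),(5,5),(11,9),(25,6),(31,8)]) (V 42)) (V 19))) 
(V 26))) (V 25))) (V 49))) (V 46)))) (N 6 (V 15) (N 10 (N 11 (N 13 (N 12 (V 52) (V 13)) (N 12 (N 14 
(N 16 (V 28) (N 17 (N 15 (N 8 (V 10) (N 3 (N 9 (L [(0,9),(1,8),(2,8),(5,9),(8,10),(11,5),(29,5)]) 
(V 11)) (V 27))) (V 8)) (N 15 (N 8 (N 3 (V 21) (V 53)) (V 29)) (N 8 (V 28) (V 14))))) (N 16 (V 52) 
(V 25))) (V 49))) (V 9)) (N 11 (V 19) (N 13 (N 12 (V 52) (V 13)) (N 12 (N 14 (N 16 (N 17 (N 15 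
(V 26) (N 8 (V 29) (V 17))) (N 15 (V 49) (V 29))) (V 4)) (N 16 (N 17 (N 15 (V 26) (N 8 (N 3 (V 50) 
(V 12)) (V 28))) (N 15 (V 17) (V 29))) (N 17 (N 15 (V 26) (N 8 (V 10) (N 3 (V 27) (N 9 
(L [(0,7),(1,8),(2,10),(5,10),(8,9),(10,5),(29,5)]) (V 11))))) (N 15 (V 49) (V 29))))) (V 49))))))) 
(V 39)) (N 2 (N 4 (N 6 (N 10 (N 11 (V 43) (V 1)) (N 11 (N 13 (N 12 (V 49) (N 14 (N 16 (N 17 (N 15 
(N 8 (N 3 (V 29) (V 28)) (V 53)) (V 49)) (N 15 (N 8 (N 3 (N 9 (V 11) 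
(L [(0,13),(1,9),(2,12),(5,5),(8,5),(11,5),(28,5)])) (V 27)) (V 53)) (N 8 (V 10) (N 3 (N 9 (V 11) 
(L [(0,16),(1,9),(2,9),(5,5),(8,5),(25,5),(28,5)])) (V 13))))) (N 17 (N 15 (N 8 (V 28) (V 53)) 
(V 49)) (N 15 (N 8 (V 28) (V 53)) (N 8 (V 10) (N 3 (N 9 
(L [(0,13),(1,12),(2,9),(5,5),(8,5),(11,5),(25,5)]) (V 44)) (V 50)))))) (N 16 (V 46) (N 17 (N 15 
(N 8 (V 10) (N 3 (V 22) (N 9 (V 35) (L [(0,14),(1,8),(2,8),(5,5),(8,5),(25,7),(28,7)])))) (V 49)) 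
(N 15 (N 8 (V 1) (V 29)) (N 8 (V 9) (V 50))))))) (N 12 (V 0) (V 52))) (V 46))) (V 21)) (N 6 (N 10 
(N 11 (V 46) (N 13 (N 12 (V 49) (N 14 (N 16 (V 25) (N 17 (N 15 (V 26) (N 8 (N 3 (V 27) (N 9 (V 42) 
(L [(0,8),(1,10),(2,8),(8,5),(10,9),(26,6),(32,8)]))) (V 19))) (N 15 (V 5) (V 29)))) (N 16 (N 17 
(N 15 (N 8 (N 3 (N 9 (L [(0,8),(1,11),(2,11),(8,5),(11,8),(13,6),(26,5)]) (V 2)) (V 53)) (V 10)) 
(N 8 (V 53) (N 3 (V 29) (V 42)))) (N 15 (V 5) (N 8 (V 53) (N 3 (N 9 (V 11) 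
(L [(0,8),(1,13),(2,9),(8,5),(11,8),(13,6),(28,5)])) (V 27))))) (V 28)))) (N 12 (N 14 (N 16 (N 17 
(N 15 (N 8 (V 50) (V 23)) (V 28)) (N 15 (N 8 (V 50) (N 3 (V 45) (N 9 (V 32) 
(L [(0,8),(1,15),(2,15),(8,8),(10,8)])))) (N 8 (N 3 (V 27) (V 27)) (V 10)))) (N 17 (N 15 (V 26) (N 8
 (N 3 (V 27) (V 27)) (V 19))) (N 15 (N 8 (V 50) (N 3 (V 45) (V 28))) (V 29)))) (N 16 (V 40) (N 17 
(N 15 (N 8 (V 10) (V 10)) (V 25)) (N 15 (N 8 (N 3 (V 20) (V 53)) (V 10)) (N 8 (V 53) (V 7)))))) 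
(V 52)))) (N 11 (V 19) (V 43))) (N 10 (N 11 (V 46) (N 13 (N 12 (N 14 (N 16 (V 25) (V 46)) (N 16 
(N 17 (N 15 (N 8 (N 3 (V 27) (N 9 (V 51) (L [(0,8),(1,9),(2,8),(5,10),(8,9),(10,5),(26,5)]))) (V 10)
) (N 8 (V 53) (V 28))) (N 15 (V 5) (N 8 (V 53) (V 28)))) (V 28))) (V 13)) (N 12 (V 9) (N 14 (N 16 
(N 17 (N 15 (V 29) (V 43)) (N 15 (N 8 (V 50) (V 29)) (V 26))) (N 17 (N 15 (V 29) (V 23)) (N 15 (N 8 
(V 50) (V 29)) (V 26)))) (N 16 (V 7) (N 17 (N 15 (V 29) (V 43)) (N 15 (N 8 (N 3 (N 9 (V 48) 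
(L [(0,8),(1,7),(2,10),(5,9),(8,10),(11,5),(26,5)])) (V 27)) (V 10)) (V 26)))))))) (N 11 (V 19) 
(V 43))))) (N 4 (N 6 (V 36) (N 10 (N 11 (V 43) (V 36)) (N 11 (N 13 (N 12 (N 14 (N 16 (V 28) (N 17 
(N 15 (V 26) (N 8 (V 10) (N 3 (V 29) (V 28)))) (N 15 (N 8 (N 3 (N 9 (V 45) 
(L [(0,5),(1,8),(2,12),(5,5),(7,13),(11,5),(14,6)])) (V 27)) (V 53)) (V 29)))) (N 16 (N 17 (N 15 
(V 26) (N 8 (N 3 (V 27) (N 9 (V 42) (L [(0,5),(1,12),(2,8),(5,5),(7,9),(10,5),(14,10)]))) (V 50))) 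
(N 15 (V 23) (V 29))) (V 25))) (N 14 (N 16 (N 17 (N 15 (N 8 (N 3 (V 29) (V 37)) (V 53)) (V 49)) 
(N 15 (N 8 (N 3 (N 9 (V 11) (L [(0,5),(1,12),(2,12),(5,5),(7,10),(11,5),(28,5)])) (V 27)) (V 53)) 
(N 8 (V 10) (N 3 (N 9 (V 11) (L [(0,5),(1,12),(2,9),(5,5),(7,13),(25,5),(28,5)])) (V 21))))) (V 40))
 (N 16 (V 46) (N 17 (N 15 (N 8 (V 10) (N 3 (V 22) (N 9 (V 35) 
(L [(0,5),(1,11),(2,8),(5,5),(7,11),(25,7),(28,7)])))) (V 49)) (N 15 (N 8 (V 36) (V 29)) (N 8 (V 23)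
 (V 50))))))) (N 12 (V 16) (N 14 (N 16 (N 17 (N 15 (N 8 (N 3 (V 27) (N 9 
(L [(0,5),(1,8),(2,9),(5,5),(7,10),(10,8),(14,9)]) (V 32))) (V 53)) (V 8)) (N 15 (V 43) (N 8 (V 10) 
(N 3 (V 37) (V 21))))) (V 40)) (N 16 (V 46) (N 17 (N 15 (N 8 (V 36) (V 23)) (V 8)) (N 15 (V 43) (N 8
 (N 3 (N 9 (L [(0,5),(1,7),(2,10),(5,5),(7,10),(11,8),(14,9)]) (V 35)) (V 27)) (V 50)))))))) (V 46))
)) (N 6 (V 33) (V 30))))))) (N 5 (N 7 (N 0 (N 2 (N 4 (N 6 (V 30) (V 33)) (N 6 (N 10 (N 11 (V 46) 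
(N 13 (N 12 (N 14 (N 16 (N 17 (N 15 (N 8 (V 50) (N 3 (V 27) (N 9 (V 35) 
(L [(0,10),(1,5),(2,7),(4,5),(8,10),(10,8),(13,9)])))) (V 43)) (N 15 (V 8) (N 8 (V 23) (V 36)))) 
(V 46)) (N 16 (V 40) (N 17 (N 15 (N 8 (N 3 (V 21) (V 37)) (V 10)) (V 43)) (N 15 (V 8) (N 8 (V 53) 
(N 3 (N 9 (V 32) (L [(0,9),(1,5),(2,8),(4,5),(8,10),(11,8),(13,9)])) (V 27))))))) (V 16)) (N 12 
(N 14 (N 16 (N 17 (N 15 (N 8 (V 50) (V 23)) (N 8 (V 29) (V 36))) (N 15 (V 49) (N 8 (N 3 (N 9 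
(L [(0,8),(1,5),(2,11),(4,5),(8,11),(26,7),(29,7)]) (V 35)) (V 22)) (V 10)))) (V 46)) (N 16 (V 40) 
(N 17 (N 15 (N 8 (N 3 (V 21) (N 9 (L [(0,9),(1,5),(2,12),(4,5),(8,13),(26,5),(29,5)]) (V 11))) 
(V 10)) (N 8 (V 53) (N 3 (V 27) (N 9 (L [(0,12),(1,5),(2,12),(4,5),(8,10),(10,5),(29,5)]) (V 11)))))
 (N 15 (V 49) (N 8 (V 53) (N 3 (V 37) (V 29))))))) (N 14 (N 16 (V 25) (N 17 (N 15 (V 29) (V 23)) 
(N 15 (N 8 (V 50) (N 3 (N 9 (L [(0,8),(1,5),(2,12),(4,5),(8,9),(11,5),(13,10)]) (V 42)) (V 27))) 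
(V 26)))) (N 16 (N 17 (N 15 (V 29) (N 8 (V 53) (N 3 (V 27) (N 9 
(L [(0,12),(1,5),(2,8),(4,5),(8,13),(10,5),(13,6)]) (V 45))))) (N 15 (N 8 (N 3 (V 28) (V 29)) (V 10)
) (V 26))) (V 28)))))) (N 11 (V 36) (V 43))) (V 36))) (N 4 (N 6 (N 10 (N 11 (V 43) (V 19)) (N 11 
(N 13 (N 12 (N 14 (N 16 (N 17 (N 15 (V 26) (N 8 (V 10) (N 3 (V 27) (N 9 
(L [(0,10),(1,8),(2,7),(4,9),(7,10),(10,5),(25,5)]) (V 48))))) (N 15 (V 43) (V 29))) (V 7)) (N 16 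
(N 17 (N 15 (V 26) (N 8 (V 29) (V 50))) (N 15 (V 23) (V 29))) (N 17 (N 15 (V 26) (N 8 (V 29) (V 50))
) (N 15 (V 43) (V 29))))) (V 9)) (N 12 (V 13) (N 14 (N 16 (V 28) (N 17 (N 15 (N 8 (V 28) (V 53)) 
(V 5)) (N 15 (N 8 (V 28) (V 53)) (N 8 (V 10) (N 3 (N 9 
(L [(0,8),(1,8),(2,9),(4,10),(7,9),(11,5),(25,5)]) (V 51)) (V 27)))))) (N 16 (V 46) (V 25))))) 
(V 46))) (N 10 (N 11 (V 43) (V 19)) (N 11 (N 13 (N 12 (V 52) (N 14 (N 16 (N 17 (N 15 (N 8 (V 7) 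
(V 53)) (N 8 (V 10) (N 3 (V 53) (V 20)))) (N 15 (V 25) (N 8 (V 10) (V 10)))) (V 40)) (N 16 (N 17 
(N 15 (V 29) (N 8 (N 3 (V 28) (V 45)) (V 50))) (N 15 (N 8 (V 19) (N 3 (V 27) (V 27))) (V 26))) (N 17
 (N 15 (N 8 (V 10) (N 3 (V 27) (V 27))) (N 8 (N 3 (N 9 (L [(0,15),(1,8),(2,15),(7,8),(11,8)]) (V 32)
) (V 45)) (V 50))) (N 15 (V 28) (N 8 (V 23) (V 50))))))) (N 12 (N 14 (N 16 (V 28) (N 17 (N 15 (N 8 
(N 3 (V 27) (N 9 (L [(0,9),(1,8),(2,13),(7,5),(10,8),(14,6),(29,5)]) (V 11))) (V 53)) (V 5)) (N 15 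
(N 8 (N 3 (V 42) (V 29)) (V 53)) (N 8 (V 10) (N 3 (V 53) (N 9 (V 2) 
(L [(0,11),(1,8),(2,11),(7,5),(10,8),(14,6),(25,5)]))))))) (N 16 (N 17 (N 15 (V 29) (V 5)) (N 15 
(N 8 (V 19) (N 3 (N 9 (L [(0,8),(1,8),(2,10),(7,5),(11,9),(25,6),(31,8)]) (V 42)) (V 27))) (V 26))) 
(V 25))) (V 49))) (V 46)))) (N 6 (V 21) (N 10 (N 11 (V 46) (N 13 (N 12 (V 52) (V 0)) (N 12 (N 14 
(N 16 (N 17 (N 15 (N 8 (V 50) (V 9)) (N 8 (V 29) (V 1))) (N 15 (V 49) (N 8 (N 3 (N 9 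
(L [(0,8),(1,14),(2,8),(4,5),(7,5),(26,7),(29,7)]) (V 35)) (V 22)) (V 10)))) (V 46)) (N 16 (N 17 
(N 15 (N 8 (N 3 (V 50) (N 9 (V 44) (L [(0,9),(1,13),(2,12),(4,5),(7,5),(10,5),(26,5)]))) (V 10)) 
(N 8 (V 53) (V 28))) (N 15 (V 49) (N 8 (V 53) (V 28)))) (N 17 (N 15 (N 8 (N 3 (V 13) (N 9 
(L [(0,9),(1,16),(2,9),(4,5),(7,5),(26,5),(29,5)]) (V 11))) (V 10)) (N 8 (V 53) (N 3 (V 27) (N 9 
(L [(0,12),(1,13),(2,9),(4,5),(7,5),(10,5),(29,5)]) (V 11))))) (N 15 (V 49) (N 8 (V 53) (N 3 (V 28) 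
(V 29))))))) (V 49)))) (N 11 (V 1) (V 43)))))) (N 2 (V 39) (N 4 (N 6 (N 10 (N 11 (N 13 (N 12 (V 49) 
(N 14 (N 16 (N 17 (N 15 (V 29) (V 49)) (N 15 (N 8 (N 3 (N 9 (V 11) 
(L [(0,8),(1,10),(2,7),(4,10),(7,9),(11,5),(28,5)])) (V 27)) (V 10)) (V 26))) (N 17 (N 15 (V 29) 
(V 17)) (N 15 (N 8 (V 28) (N 3 (V 12) (V 50))) (V 26)))) (N 16 (V 4) (N 17 (N 15 (V 29) (V 49)) 
(N 15 (N 8 (V 17) (V 29)) (V 26)))))) (N 12 (V 13) (V 52))) (V 19)) (N 11 (V 9) (N 13 (N 12 (V 49) 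
(N 14 (N 16 (V 25) (V 52)) (N 16 (N 17 (N 15 (N 8 (V 14) (V 28)) (N 8 (V 29) (N 3 (V 53) (V 21)))) 
(N 15 (V 8) (N 8 (N 3 (V 27) (N 9 (V 11) (L [(0,8),(1,8),(2,9),(4,9),(7,10),(10,5),(28,5)]))) (V 10)
))) (V 28)))) (N 12 (V 13) (V 52))))) (V 15)) (N 6 (N 10 (N 11 (V 46) (N 13 (N 12 (V 49) (N 14 (N 16
 (V 25) (N 17 (N 15 (V 26) (N 8 (N 3 (V 19) (N 9 (V 42) 
(L [(0,8),(1,8),(2,10),(4,5),(10,9),(26,6),(32,8)]))) (N 3 (V 29) (V 42)))) (N 15 (V 8) (V 29)))) 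
(N 16 (N 17 (N 15 (N 8 (N 3 (N 9 (L [(0,8),(1,9),(2,13),(4,5),(11,8),(13,6),(26,5)]) (V 2)) (V 53)) 
(V 10)) (N 8 (V 53) (N 3 (V 29) (V 42)))) (N 15 (V 8) (N 8 (V 53) (N 3 (N 9 (V 11) 
(L [(0,8),(1,11),(2,11),(4,5),(11,8),(13,6),(28,5)])) (V 42))))) (V 28)))) (N 12 (V 13) (V 52)))) 
(N 11 (N 13 (N 12 (V 49) (N 14 (N 16 (N 17 (N 15 (N 8 (V 50) (V 53)) (V 28)) (N 15 (N 8 (V 50) 
(V 53)) (N 8 (V 10) (N 3 (V 27) (V 27))))) (N 17 (N 15 (V 26) (N 8 (V 10) (N 3 (V 29) (V 28)))) 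
(N 15 (N 8 (V 50) (V 53)) (V 29)))) (N 16 (V 34) (N 17 (N 15 (N 8 (V 10) (V 10)) (V 25)) (N 15 (N 8 
(N 3 (V 52) (N 9 (L [(0,8),(1,15),(2,15),(4,8),(10,8)]) (V 2))) (V 29)) (N 8 (V 53) (V 50))))))) 
(N 12 (V 13) (V 52))) (V 43))) (N 10 (N 11 (V 46) (N 13 (N 12 (V 52) (V 0)) (N 12 (N 14 (N 16 (N 17 
(N 15 (N 8 (V 50) (N 3 (V 28) (V 29))) (V 43)) (N 15 (N 8 (V 50) (V 29)) (N 8 (N 3 (V 19) (N 9 
(L [(0,14),(1,8),(2,8),(4,5),(7,5),(26,7),(29,7)]) (V 32))) (V 10)))) (N 17 (N 15 (N 8 (V 50) (N 3 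
(N 9 (L [(0,13),(1,9),(2,12),(4,5),(7,5),(11,5),(29,5)]) (V 11)) (V 27))) (V 43)) (N 15 (N 8 (V 50) 
(V 29)) (N 8 (V 28) (V 1))))) (N 16 (V 52) (N 17 (N 15 (N 8 (N 3 (N 9 
(L [(0,16),(1,9),(2,9),(4,5),(7,5),(26,5),(29,5)]) (V 11)) (V 16)) (V 10)) (V 43)) (N 15 (N 8 (N 3 
(N 9 (V 47) (L [(0,13),(1,12),(2,9),(4,5),(7,5),(11,5),(26,5)])) (V 53)) (V 10)) (N 8 (V 53) (V 9)))
))) (V 49)))) (N 11 (V 1) (V 43))))))) (N 0 (N 2 (V 9) (N 4 (N 6 (N 10 (N 11 (N 13 (N 12 (N 14 (N 16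
 (V 25) (N 17 (N 15 (V 26) (N 8 (N 3 (V 6) (N 9 (V 23) (L [(0,12),(1,13),(2,14),(4,9),(26,6)]))) 
(V 14))) (N 15 (V 31) (V 29)))) (N 16 (N 17 (N 15 (V 26) (N 8 (V 29) (N 3 (N 9 (V 2) 
(L [(0,15),(1,10),(2,10),(4,9),(11,10)])) (V 22)))) (N 15 (V 31) (V 29))) (V 28))) (V 1)) (N 12 
(V 33) (N 14 (N 16 (V 28) (N 17 (N 15 (N 8 (V 28) (N 3 (V 36) (N 9 (V 2) 
(L [(0,16),(1,11),(2,8),(4,11),(17,8)])))) (V 12)) (N 15 (V 7) (N 8 (N 3 (V 6) (N 9 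
(L [(0,12),(1,12),(2,12),(4,10),(17,8)]) (V 41))) (V 14))))) (N 16 (V 4) (V 25))))) (V 19)) (N 11 
(V 39) (N 13 (N 12 (N 14 (N 16 (N 17 (N 15 (V 29) (V 4)) (N 15 (N 8 (N 3 (V 36) (N 9 
(L [(0,15),(1,13),(2,7),(4,13),(17,6)]) (V 2))) (V 29)) (V 26))) (V 7)) (N 16 (V 40) (N 17 (N 15 
(V 29) (V 4)) (N 15 (N 8 (V 14) (N 3 (V 6) (N 9 (V 38) (L [(0,11),(1,14),(2,11),(4,12),(17,6)])))) 
(V 26))))) (V 1)) (N 12 (V 33) (N 14 (N 16 (V 25) (V 16)) (N 16 (N 17 (N 15 (V 26) (N 8 (N 3 (N 9 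
(L [(0,14),(1,10),(2,11),(4,9),(11,10)]) (V 2)) (V 22)) (V 28))) (N 15 (V 37) (V 29))) (V 28))))))) 
(N 10 (N 11 (N 13 (N 12 (N 14 (N 16 (V 25) (V 34)) (N 16 (N 17 (N 15 (N 8 (V 17) (N 3 (N 9 (V 41) 
(L [(0,15),(1,10),(2,10),(11,10),(14,9)])) (V 22))) (V 5)) (N 15 (V 31) (N 8 (N 3 (N 9 
(L [(0,11),(1,10),(2,14),(11,10),(17,9)]) (V 2)) (V 36)) (V 10)))) (V 28))) (V 30)) (N 12 (V 16) 
(N 14 (N 16 (V 28) (N 17 (N 15 (V 29) (V 12)) (N 15 (N 8 (N 3 (V 6) (N 9 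
(L [(0,13),(1,12),(2,13),(14,8),(17,8)]) (V 2))) (V 29)) (V 26)))) (N 16 (V 21) (V 25))))) (V 19)) 
(N 11 (V 39) (N 13 (N 12 (N 14 (N 16 (V 28) (N 17 (N 15 (V 29) (V 37)) (N 15 (N 8 (V 28) (N 3 (V 6) 
(N 9 (V 2) (L [(0,14),(1,14),(2,14),(14,6),(17,6)])))) (V 26)))) (N 16 (V 34) (V 25))) (V 30)) (N 12
 (V 16) (N 14 (N 16 (N 17 (N 15 (V 26) (N 8 (N 3 (N 9 (L [(0,14),(1,10),(2,11),(11,10),(14,9)]) 
(V 38)) (V 22)) (V 17))) (N 15 (V 37) (V 29))) (V 40)) (N 16 (V 5) (N 17 (N 15 (V 26) (N 8 (V 10) 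
(N 3 (N 9 (V 2) (L [(0,10),(1,10),(2,15),(11,10),(17,9)])) (V 36)))) (N 15 (V 37) (V 29)))))))))) 
(N 6 (V 21) (N 10 (N 11 (V 46) (N 13 (N 12 (V 49) (N 14 (N 16 (N 17 (N 15 (V 29) (V 28)) (N 15 (N 8 
(V 50) (N 3 (V 45) (N 9 (V 11) (L [(0,11),(1,8),(2,11),(4,5),(10,8),(17,6),(28,5)])))) (V 26))) 
(N 17 (N 15 (V 29) (N 8 (N 3 (N 9 (V 45) (L [(0,10),(1,8),(2,8),(4,5),(11,9),(26,6),(32,8)])) (V 22)
) (N 3 (V 45) (V 28)))) (N 15 (N 8 (V 50) (N 3 (V 45) (V 28))) (V 26)))) (N 16 (V 7) (N 17 (N 15 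
(V 29) (V 25)) (N 15 (N 8 (N 3 (V 50) (N 9 (L [(0,13),(1,8),(2,9),(4,5),(10,8),(17,6),(26,5)]) (V 2)
)) (V 10)) (V 26)))))) (N 12 (V 16) (V 52)))) (N 11 (N 13 (N 12 (V 49) (N 14 (N 16 (N 17 (N 15 (N 8 
(V 50) (V 53)) (V 28)) (N 15 (V 31) (N 8 (V 10) (N 3 (V 27) (V 27))))) (N 17 (N 15 (V 26) (N 8 
(V 10) (N 3 (V 29) (V 28)))) (N 15 (V 31) (V 29)))) (N 16 (N 17 (N 15 (N 8 (N 3 (N 9 
(L [(0,15),(1,8),(2,15),(4,8),(11,8)]) (V 2)) (V 49)) (V 28)) (N 8 (V 53) (V 50))) (N 15 (V 31) (N 8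
 (V 53) (V 50)))) (N 17 (N 15 (N 8 (V 10) (V 10)) (V 25)) (N 15 (V 31) (N 8 (V 53) (V 50))))))) 
(N 12 (V 16) (V 52))) (V 43)))))) (N 2 (N 4 (N 6 (N 10 (N 11 (N 13 (N 12 (V 49) (N 14 (N 16 (N 17 
(N 15 (N 8 (N 3 (N 9 (L [(0,5),(1,10),(2,7),(4,10),(8,5),(11,8),(17,9)]) (V 41)) (V 27)) (V 10)) 
(V 49)) (N 15 (V 31) (N 8 (V 50) (V 14)))) (V 52)) (N 16 (V 4) (N 17 (N 15 (N 8 (V 17) (N 3 (V 12) 
(V 34))) (V 49)) (N 15 (V 31) (N 8 (N 3 (V 50) (N 9 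
(L [(0,5),(1,9),(2,8),(4,10),(8,5),(10,8),(17,9)]) (V 38))) (V 10))))))) (N 12 (V 33) (V 52))) 
(V 19)) (N 11 (N 13 (N 12 (V 49) (N 14 (N 16 (N 17 (N 15 (N 8 (N 3 (V 34) (V 28)) (V 53)) (V 49)) 
(N 15 (V 31) (N 8 (V 10) (N 3 (N 9 (V 11) (L [(0,5),(1,9),(2,12),(4,13),(8,5),(25,5),(28,5)])) 
(V 13))))) (N 17 (N 15 (N 8 (V 28) (V 53)) (V 49)) (N 15 (V 31) (N 8 (V 10) (N 3 (N 9 
(L [(0,5),(1,12),(2,12),(4,10),(8,5),(11,5),(25,5)]) (V 44)) (V 50)))))) (N 16 (V 46) (N 17 (N 15 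
(N 8 (V 10) (N 3 (V 12) (N 9 (V 35) (L [(0,5),(1,8),(2,11),(4,11),(8,5),(25,7),(28,7)])))) (V 49)) 
(N 15 (V 31) (N 8 (V 14) (V 50))))))) (N 12 (V 33) (V 52))) (N 13 (N 12 (V 49) (N 14 (N 16 (V 25) 
(N 17 (N 15 (V 29) (V 14)) (N 15 (N 8 (N 3 (V 34) (V 29)) (N 3 (N 9 
(L [(0,5),(1,12),(2,8),(4,13),(8,5),(11,5),(17,6)]) (V 42)) (V 27))) (V 26)))) (N 16 (N 17 (N 15 
(V 29) (N 8 (N 3 (V 28) (V 45)) (N 3 (V 27) (N 9 (L [(0,5),(1,8),(2,12),(4,9),(8,5),(10,5),(17,10)])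
 (V 45))))) (N 15 (N 8 (V 14) (N 3 (V 27) (V 27))) (V 26))) (V 28)))) (N 12 (V 33) (V 52))))) (N 10 
(N 11 (N 13 (N 12 (N 14 (N 16 (N 17 (N 15 (N 8 (N 3 (V 27) (V 27)) (V 9)) (V 7)) (N 15 (V 31) (N 8 
(V 23) (V 14)))) (V 34)) (N 16 (V 4) (N 17 (N 15 (N 8 (V 17) (V 20)) (V 7)) (N 15 (V 31) (N 8 (V 10)
 (V 10)))))) (V 13)) (N 12 (N 14 (N 16 (N 17 (N 15 (V 26) (N 8 (V 29) (V 14))) (N 15 (V 49) (V 29)))
 (V 34)) (N 16 (N 17 (N 15 (V 26) (N 8 (N 3 (V 50) (V 36)) (V 28))) (N 15 (V 14) (V 29))) (N 17 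
(N 15 (V 26) (N 8 (V 10) (N 3 (V 27) (N 9 (L [(0,5),(1,12),(2,8),(4,10),(10,5),(14,9),(29,5)]) 
(V 11))))) (N 15 (V 49) (V 29))))) (N 14 (N 16 (V 28) (N 17 (N 15 (V 29) (N 8 (N 3 (N 9 (V 20) 
(L [(0,5),(1,7),(2,7),(4,10),(11,11),(17,8),(26,6)])) (V 27)) (V 14))) (N 15 (N 8 (N 3 (N 9 (V 45) 
(L [(0,5),(1,7),(2,7),(4,14),(11,5),(14,8),(17,8)])) (V 27)) (N 3 (V 12) (V 28))) (V 26)))) (N 16 
(V 9) (V 25))))) (V 19)) (N 11 (N 13 (N 12 (N 14 (N 16 (V 28) (N 17 (N 15 (N 8 (V 28) (V 53)) (V 7))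
 (N 15 (V 31) (N 8 (V 10) (N 3 (N 9 (L [(0,5),(1,8),(2,12),(4,13),(11,5),(14,6),(25,5)]) (V 51)) 
(V 27)))))) (N 16 (V 46) (V 25))) (V 13)) (N 12 (V 9) (N 14 (N 16 (N 17 (N 15 (V 26) (N 8 (V 10) 
(N 3 (V 27) (N 9 (L [(0,5),(1,8),(2,12),(4,10),(10,5),(14,9),(25,5)]) (V 48))))) (N 15 (V 43) (V 29)
)) (V 40)) (N 16 (N 17 (N 15 (V 26) (N 8 (V 29) (V 50))) (N 15 (V 20) (V 29))) (N 17 (N 15 (V 26) 
(N 8 (V 29) (V 50))) (N 15 (V 43) (V 29))))))) (N 13 (N 12 (N 14 (N 16 (V 28) (N 17 (N 15 (V 29) 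
(V 9)) (N 15 (N 8 (N 3 (V 34) (V 29)) (N 3 (N 9 (L [(0,5),(1,8),(2,8),(4,16),(11,5),(14,6),(17,6)]) 
(V 42)) (V 27))) (V 26)))) (N 16 (N 17 (N 15 (V 29) (V 9)) (N 15 (N 8 (V 14) (N 3 (N 9 
(L [(0,5),(1,8),(2,8),(4,12),(11,9),(17,6),(25,6)]) (V 20)) (V 27))) (V 26))) (V 25))) (V 13)) (N 12
 (N 14 (N 16 (V 28) (N 17 (N 15 (N 8 (V 10) (N 3 (N 9 
(L [(0,5),(1,12),(2,8),(4,13),(11,5),(14,6),(29,5)]) (V 11)) (V 27))) (V 4)) (N 15 (V 37) (N 8 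
(V 28) (V 17))))) (N 16 (V 52) (V 25))) (N 14 (N 16 (N 17 (N 15 (N 8 (V 9) (N 3 (V 27) (V 27))) 
(V 4)) (N 15 (V 37) (N 8 (V 20) (V 17)))) (V 40)) (N 16 (V 7) (N 17 (N 15 (N 8 (V 14) (V 23)) (V 4))
 (N 15 (V 37) (N 8 (V 10) (V 10))))))))))) (N 6 (V 9) (N 10 (N 11 (V 46) (N 13 (N 12 (N 14 (N 16 
(V 25) (N 17 (N 15 (V 29) (V 20)) (N 15 (N 8 (V 50) (N 3 (N 9 
(L [(0,5),(1,8),(2,12),(4,5),(8,13),(11,5),(17,6)]) (V 42)) (V 27))) (V 26)))) (N 16 (N 17 (N 15 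
(V 29) (N 8 (V 53) (N 3 (V 27) (N 9 (L [(0,5),(1,12),(2,8),(4,5),(8,9),(10,5),(17,10)]) (V 45))))) 
(N 15 (N 8 (N 3 (V 28) (V 29)) (V 10)) (V 26))) (V 28))) (V 13)) (N 12 (N 14 (N 16 (N 17 (N 15 (N 8 
(V 50) (N 3 (V 28) (V 40))) (V 43)) (N 15 (V 37) (N 8 (N 3 (V 19) (N 9 
(L [(0,5),(1,11),(2,8),(4,5),(8,11),(26,7),(29,7)]) (V 32))) (V 10)))) (N 17 (N 15 (N 8 (V 50) (N 3 
(N 9 (L [(0,5),(1,12),(2,12),(4,5),(8,10),(11,5),(29,5)]) (V 11)) (V 27))) (V 43)) (N 15 (V 37) (N 8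
 (V 28) (V 39))))) (N 16 (V 52) (N 17 (N 15 (N 8 (N 3 (N 9 
(L [(0,5),(1,12),(2,9),(4,5),(8,13),(26,5),(29,5)]) (V 11)) (V 18)) (V 10)) (V 43)) (N 15 (V 37) 
(N 8 (V 53) (V 20)))))) (N 14 (N 16 (N 17 (N 15 (N 8 (V 50) (N 3 (V 27) (N 9 (V 35) 
(L [(0,5),(1,8),(2,9),(4,5),(8,10),(10,8),(17,9)])))) (V 43)) (N 15 (V 37) (N 8 (V 20) (V 39)))) 
(V 46)) (N 16 (V 7) (N 17 (N 15 (N 8 (N 3 (V 40) (V 18)) (V 10)) (V 43)) (N 15 (V 37) (N 8 (V 53) 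
(N 3 (N 9 (V 32) (L [(0,5),(1,7),(2,10),(4,5),(8,10),(11,8),(17,9)])) (V 27)))))))))) (N 11 (V 39) 
(V 43))))) (V 18)))) (N 7 (N 0 (N 2 (N 4 (N 6 (V 30) (N 10 (N 11 (N 13 (N 12 (N 14 (N 16 (N 17 (N 15
 (N 8 (V 10) (V 10)) (V 37)) (N 15 (N 8 (N 3 (V 6) (N 9 (L [(0,12),(1,13),(2,14),(4,6),(16,9)]) 
(V 2))) (V 10)) (N 8 (V 23) (V 14)))) (V 34)) (N 16 (V 40) (N 17 (N 15 (N 8 (V 17) (V 20)) (V 37)) 
(N 15 (N 8 (V 17) (V 53)) (N 8 (V 10) (N 3 (V 27) (V 27))))))) (V 46)) (N 12 (V 1) (N 14 (N 16 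
(V 25) (V 9)) (N 16 (N 17 (N 15 (V 26) (N 8 (N 3 (V 28) (V 31)) (N 3 (V 27) (N 9 
(L [(0,8),(1,9),(2,8),(4,6),(10,5),(14,12),(16,6)]) (V 45))))) (N 15 (N 8 (V 17) (N 3 (V 27) (N 9 
(L [(0,8),(1,9),(2,8),(4,6),(10,9),(14,8),(25,6)]) (V 23)))) (V 29))) (V 28))))) (N 13 (N 12 (V 49) 
(N 14 (N 16 (V 25) (N 17 (N 15 (V 26) (N 8 (N 3 (V 6) (N 9 (V 42) 
(L [(0,7),(1,12),(2,7),(4,6),(14,8),(26,6),(32,8)]))) (V 0))) (N 15 (V 9) (V 29)))) (N 16 (N 17 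
(N 15 (N 8 (N 3 (N 9 (L [(0,8),(1,9),(2,10),(4,6),(11,8),(14,8),(26,5)]) (V 2)) (V 53)) (V 10)) (N 8
 (V 53) (N 3 (V 29) (V 42)))) (N 15 (V 9) (N 8 (V 53) (N 3 (N 9 (V 11) 
(L [(0,10),(1,9),(2,8),(4,6),(11,8),(14,8),(28,5)])) (V 42))))) (V 28)))) (N 12 (V 1) (V 52)))) 
(N 11 (V 0) (N 13 (N 12 (N 14 (N 16 (V 28) (N 17 (N 15 (V 26) (N 8 (N 3 (V 27) (N 9 (V 23) 
(L [(0,7),(1,11),(2,7),(4,6),(10,11),(14,6),(26,6)]))) (V 17))) (N 15 (V 9) (V 29)))) (N 16 (N 17 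
(N 15 (V 26) (N 8 (N 3 (V 27) (N 9 (V 42) (L [(0,7),(1,11),(2,7),(4,6),(10,5),(14,10),(16,8)]))) 
(N 3 (V 29) (V 42)))) (N 15 (V 9) (V 29))) (V 25))) (V 43)) (N 12 (V 1) (N 14 (N 16 (N 17 (N 15 (N 8
 (V 10) (V 10)) (V 31)) (N 15 (N 8 (N 3 (V 39) (V 53)) (V 29)) (N 8 (V 20) (V 17)))) (V 40)) (N 16 
(V 34) (N 17 (N 15 (N 8 (V 14) (V 23)) (V 31)) (N 15 (N 8 (V 14) (N 3 (V 6) (N 9 (V 38) 
(L [(0,14),(1,13),(2,12),(4,6),(16,9)])))) (N 8 (N 3 (V 27) (V 27)) (V 10))))))))))) (N 6 (N 10 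
(N 11 (N 13 (N 12 (N 14 (N 16 (N 17 (N 15 (N 8 (V 10) (V 10)) (V 37)) (N 15 (V 8) (N 8 (V 23) (V 14)
))) (V 5)) (N 16 (V 40) (N 17 (N 15 (N 8 (V 17) (V 20)) (V 37)) (N 15 (V 8) (N 8 (V 9) (N 3 (V 27) 
(V 27))))))) (V 16)) (N 12 (N 14 (N 16 (N 17 (N 15 (V 26) (N 8 (V 29) (V 14))) (N 15 (V 49) (V 29)))
 (V 5)) (N 16 (V 40) (N 17 (N 15 (V 26) (N 8 (V 10) (N 3 (V 27) (N 9 
(L [(0,8),(1,5),(2,12),(4,13),(10,5),(16,6),(29,5)]) (V 11))))) (N 15 (V 49) (V 29))))) (N 14 (N 16 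
(V 25) (V 9)) (N 16 (N 17 (N 15 (V 26) (N 8 (N 3 (V 28) (V 31)) (N 3 (V 27) (N 9 
(L [(0,8),(1,5),(2,8),(4,16),(10,5),(13,6),(16,6)]) (V 45))))) (N 15 (N 8 (V 17) (N 3 (V 27) (N 9 
(L [(0,8),(1,5),(2,8),(4,12),(10,9),(13,6),(25,6)]) (V 23)))) (V 29))) (V 28))))) (V 22)) (N 11 
(N 13 (N 12 (N 14 (N 16 (V 28) (N 17 (N 15 (N 8 (V 28) (V 53)) (V 37)) (N 15 (N 8 (V 28) (V 53)) 
(N 8 (V 10) (N 3 (N 9 (L [(0,12),(1,5),(2,8),(4,10),(11,5),(16,9),(25,5)]) (V 51)) (V 27)))))) (N 16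
 (V 46) (V 25))) (V 16)) (N 12 (V 9) (N 14 (N 16 (N 17 (N 15 (V 26) (N 8 (V 10) (N 3 (V 27) (N 9 
(L [(0,12),(1,5),(2,8),(4,13),(10,5),(16,6),(25,5)]) (V 48))))) (N 15 (V 43) (V 29))) (V 8)) (N 16 
(V 34) (N 17 (N 15 (V 26) (N 8 (V 29) (V 50))) (N 15 (V 43) (V 29))))))) (N 13 (N 12 (N 14 (N 16 
(V 25) (N 17 (N 15 (V 26) (N 8 (N 3 (V 27) (N 9 (V 23) 
(L [(0,7),(1,5),(2,7),(4,10),(10,11),(13,8),(26,6)]))) (V 17))) (N 15 (V 9) (V 29)))) (N 16 (N 17 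
(N 15 (V 26) (N 8 (N 3 (V 27) (N 9 (V 42) (L [(0,7),(1,5),(2,7),(4,14),(10,5),(13,8),(16,8)]))) (N 3
 (V 29) (V 15)))) (N 15 (V 9) (V 29))) (V 28))) (V 16)) (N 12 (N 14 (N 16 (V 28) (N 17 (N 15 (N 8 
(V 10) (N 3 (N 9 (L [(0,8),(1,5),(2,12),(4,10),(11,5),(16,9),(29,5)]) (V 11)) (V 27))) (V 31)) (N 15
 (N 8 (N 3 (V 39) (V 53)) (V 29)) (N 8 (V 28) (V 17))))) (N 16 (V 52) (V 25))) (N 14 (N 16 (N 17 
(N 15 (N 8 (V 10) (V 10)) (V 31)) (N 15 (V 5) (N 8 (V 20) (V 17)))) (V 8)) (N 16 (V 34) (N 17 (N 15 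
(N 8 (V 14) (V 23)) (V 31)) (N 15 (V 5) (N 8 (N 3 (V 27) (V 27)) (V 9)))))))))) (V 36))) (V 12)) 
(N 2 (N 4 (N 6 (V 36) (N 10 (N 11 (N 13 (N 12 (N 14 (N 16 (N 17 (N 15 (N 8 (N 3 (V 27) (V 27)) 
(V 10)) (V 37)) (N 15 (V 31) (N 8 (V 23) (V 14)))) (V 34)) (N 16 (N 17 (N 15 (N 8 (V 17) (N 3 (N 9 
(V 41) (L [(0,13),(1,12),(2,14),(4,6),(14,9)])) (V 6))) (V 37)) (N 15 (V 31) (N 8 (N 3 (V 50) (V 36)
) (V 28)))) (N 17 (N 15 (N 8 (V 17) (V 20)) (V 37)) (N 15 (V 31) (N 8 (V 10) (V 10)))))) (V 46)) 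
(N 12 (V 1) (N 14 (N 16 (V 28) (N 17 (N 15 (V 26) (N 8 (N 3 (N 9 (V 20) 
(L [(0,11),(1,7),(2,7),(4,6),(11,11),(16,6),(26,6)])) (V 27)) (V 14))) (N 15 (N 8 (N 3 (N 9 (V 45) 
(L [(0,11),(1,7),(2,7),(4,6),(11,5),(14,8),(16,10)])) (V 27)) (N 3 (V 45) (V 28))) (V 29)))) (N 16 
(V 9) (V 25))))) (N 13 (N 12 (V 49) (N 14 (N 16 (N 17 (N 15 (V 29) (V 28)) (N 15 (N 8 (V 50) (N 3 
(V 45) (N 9 (V 11) (L [(0,9),(1,8),(2,10),(4,6),(10,8),(14,8),(28,5)])))) (V 26))) (N 17 (N 15 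
(V 26) (N 8 (N 3 (N 9 (V 45) (L [(0,12),(1,7),(2,7),(4,6),(14,8),(26,6),(32,8)])) (V 6)) (V 0))) 
(N 15 (N 8 (V 50) (N 3 (V 45) (V 28))) (V 29)))) (N 16 (V 9) (N 17 (N 15 (V 29) (V 25)) (N 15 (N 8 
(N 3 (V 50) (N 9 (L [(0,9),(1,10),(2,8),(4,6),(10,8),(14,8),(26,5)]) (V 2))) (V 10)) (V 26)))))) 
(N 12 (V 1) (V 52)))) (N 11 (V 0) (N 13 (N 12 (N 14 (N 16 (V 28) (N 17 (N 15 (V 29) (V 9)) (N 15 
(N 8 (N 3 (V 34) (V 29)) (N 3 (N 9 (L [(0,9),(1,8),(2,8),(4,6),(11,5),(14,6),(16,12)]) (V 42)) 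
(V 27))) (V 26)))) (N 16 (N 17 (N 15 (V 29) (V 9)) (N 15 (N 8 (V 14) (N 3 (N 9 
(L [(0,9),(1,8),(2,8),(4,6),(11,9),(16,8),(25,6)]) (V 20)) (V 27))) (V 26))) (V 25))) (V 43)) (N 12 
(V 1) (N 14 (N 16 (N 17 (N 15 (N 8 (V 10) (N 3 (V 27) (V 27))) (V 31)) (N 15 (V 37) (N 8 (V 20) 
(V 17)))) (V 40)) (N 16 (N 17 (N 15 (N 8 (V 14) (V 50)) (V 31)) (N 15 (V 37) (N 8 (N 3 (N 9 
(L [(0,13),(1,14),(2,12),(4,6),(14,9)]) (V 2)) (V 6)) (V 10)))) (N 17 (N 15 (N 8 (V 14) (V 23)) 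
(V 31)) (N 15 (V 37) (N 8 (V 10) (V 10))))))))))) (N 6 (V 9) (V 30))) (N 4 (N 6 (N 10 (N 11 (N 13 
(N 12 (N 14 (N 16 (V 28) (N 17 (N 15 (V 29) (V 37)) (N 15 (N 8 (V 28) (N 3 (V 45) (N 9 (V 2) 
(L [(0,10),(1,15),(2,10),(7,9),(10,10)])))) (V 26)))) (N 16 (N 17 (N 15 (V 29) (V 37)) (N 15 (N 8 
(V 17) (N 3 (N 9 (L [(0,13),(1,12),(2,14),(7,9),(25,6)]) (V 20)) (V 6))) (V 26))) (V 25))) (V 33)) 
(N 12 (V 13) (N 14 (N 16 (N 17 (N 15 (V 26) (N 8 (N 3 (N 9 (L [(0,13),(1,15),(2,7),(7,13),(16,6)]) 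
(V 38)) (V 27)) (V 14))) (N 15 (V 7) (V 29))) (V 34)) (N 16 (V 4) (N 17 (N 15 (V 26) (N 8 (V 10) 
(N 3 (N 9 (V 2) (L [(0,14),(1,11),(2,11),(7,12),(16,6)])) (V 6)))) (N 15 (V 7) (V 29))))))) (V 39)) 
(N 11 (V 0) (N 13 (N 12 (N 14 (N 16 (V 25) (V 7)) (N 16 (N 17 (N 15 (N 8 (V 14) (N 3 (N 9 (V 41) 
(L [(0,11),(1,16),(2,8),(7,11),(16,8)])) (V 21))) (V 4)) (N 15 (V 18) (N 8 (N 3 (N 9 
(L [(0,12),(1,12),(2,12),(7,10),(16,8)]) (V 2)) (V 6)) (V 10)))) (V 28))) (V 33)) (N 12 (V 13) (N 14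
 (N 16 (V 28) (N 17 (N 15 (V 29) (V 31)) (N 15 (N 8 (N 3 (V 34) (N 9 
(L [(0,10),(1,14),(2,11),(7,9),(10,10)]) (V 2))) (V 29)) (V 26)))) (N 16 (V 22) (V 25))))))) (V 15))
 (N 6 (N 10 (N 11 (N 13 (N 12 (N 14 (N 16 (V 28) (N 17 (N 15 (N 8 (V 10) (N 3 (V 39) (N 9 (V 2) 
(L [(0,10),(1,15),(2,10),(10,10),(13,9)])))) (V 37)) (N 15 (V 4) (N 8 (N 3 (V 19) (N 9 
(L [(0,10),(1,11),(2,14),(10,10),(16,9)]) (V 41))) (V 14))))) (N 16 (V 40) (V 25))) (V 33)) (N 12 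
(V 13) (N 14 (N 16 (V 25) (V 40)) (N 16 (N 17 (N 15 (V 26) (N 8 (V 29) (N 3 (N 9 (V 2) 
(L [(0,14),(1,14),(2,14),(13,6),(16,6)])) (V 6)))) (N 15 (V 31) (V 29))) (V 28))))) (V 22)) (N 11 
(V 36) (N 13 (N 12 (N 14 (N 16 (V 25) (V 15)) (N 16 (N 17 (N 15 (V 26) (N 8 (N 3 (N 9 
(L [(0,12),(1,13),(2,13),(13,8),(16,8)]) (V 2)) (V 6)) (V 28))) (N 15 (V 18) (V 29))) (V 28))) 
(V 33)) (N 12 (V 13) (N 14 (N 16 (N 17 (N 15 (V 29) (V 31)) (N 15 (N 8 (N 3 (V 39) (N 9 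
(L [(0,10),(1,14),(2,11),(10,10),(13,9)]) (V 2))) (V 10)) (V 26))) (V 4)) (N 16 (V 34) (N 17 (N 15 
(V 29) (V 31)) (N 15 (N 8 (V 14) (N 3 (V 19) (N 9 (V 38) (L [(0,10),(1,10),(2,15),(10,10),(16,9)])))
) (V 26))))))))) (N 10 (N 11 (V 43) (V 22)) (N 11 (N 13 (N 12 (V 52) (N 14 (N 16 (N 17 (N 15 (N 8 
(V 20) (V 53)) (V 37)) (N 15 (V 25) (N 8 (V 10) (V 10)))) (N 17 (N 15 (N 8 (N 3 (V 42) (N 9 
(L [(0,8),(1,15),(2,15),(7,8),(10,8)]) (V 35))) (V 53)) (V 37)) (N 15 (N 8 (N 3 (V 42) (V 29)) 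
(V 53)) (N 8 (V 10) (N 3 (V 23) (V 50)))))) (N 16 (N 17 (N 15 (V 29) (V 37)) (N 15 (N 8 (V 22) (N 3 
(V 27) (V 27))) (V 26))) (N 17 (N 15 (N 8 (V 10) (N 3 (V 27) (V 27))) (V 37)) (N 15 (V 28) (N 8 
(V 8) (V 50))))))) (N 12 (N 14 (N 16 (N 17 (N 15 (V 26) (N 8 (V 10) (N 3 (N 9 (V 2) 
(L [(0,8),(1,11),(2,11),(7,5),(11,8),(16,6),(25,5)])) (V 50)))) (N 15 (V 25) (V 29))) (V 4)) (N 16 
(N 17 (N 15 (V 26) (N 8 (N 3 (V 28) (V 45)) (V 50))) (N 15 (N 8 (V 22) (N 3 (V 27) (N 9 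
(L [(0,8),(1,10),(2,8),(7,5),(10,9),(25,6),(31,8)]) (V 45)))) (V 29))) (N 17 (N 15 (V 26) (N 8 (N 3 
(N 9 (L [(0,8),(1,13),(2,9),(7,5),(11,8),(16,6),(29,5)]) (V 11)) (V 27)) (V 50))) (N 15 (V 28) 
(V 29))))) (V 49))) (V 46))))))) (N 0 (N 2 (N 4 (N 6 (V 30) (V 39)) (N 6 (N 10 (N 11 (N 13 (N 12 
(V 49) (N 14 (N 16 (V 25) (N 17 (N 15 (V 29) (V 17)) (N 15 (N 8 (N 3 (V 42) (V 29)) (N 3 (N 9 
(L [(0,12),(1,5),(2,8),(4,9),(8,5),(11,5),(13,10)]) (V 42)) (V 27))) (V 26)))) (N 16 (N 17 (N 15 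
(V 29) (N 8 (N 3 (V 28) (V 31)) (N 3 (V 27) (N 9 (L [(0,8),(1,5),(2,12),(4,13),(8,5),(10,5),(13,6)])
 (V 45))))) (N 15 (N 8 (V 17) (N 3 (V 27) (V 27))) (V 26))) (V 28)))) (N 12 (V 30) (V 52))) (V 22)) 
(N 11 (N 13 (N 12 (V 49) (N 14 (N 16 (N 17 (N 15 (N 8 (V 17) (V 53)) (N 8 (V 10) (N 3 (V 53) (N 9 
(L [(0,12),(1,5),(2,12),(4,10),(8,5),(10,5),(25,5)]) (V 47))))) (N 15 (V 43) (N 8 (V 10) (N 3 (V 16)
 (N 9 (V 11) (L [(0,12),(1,5),(2,9),(4,13),(8,5),(25,5),(28,5)])))))) (V 52)) (N 16 (V 34) (N 17 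
(N 15 (N 8 (V 10) (N 3 (N 9 (V 32) (L [(0,11),(1,5),(2,8),(4,11),(8,5),(25,7),(28,7)])) (V 15))) 
(N 8 (V 29) (V 50))) (N 15 (V 43) (N 8 (N 3 (V 29) (V 31)) (V 50))))))) (N 12 (V 30) (V 52))) (N 13 
(N 12 (V 49) (N 14 (N 16 (N 17 (N 15 (N 8 (N 3 (N 9 
(L [(0,8),(1,5),(2,9),(4,10),(8,5),(11,8),(13,9)]) (V 41)) (V 53)) (V 10)) (V 49)) (N 15 (V 5) (N 8 
(V 53) (V 17)))) (V 52)) (N 16 (V 34) (N 17 (N 15 (N 8 (V 14) (N 3 (V 31) (V 15))) (V 49)) (N 15 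
(V 5) (N 8 (N 3 (V 27) (N 9 (L [(0,7),(1,5),(2,10),(4,10),(8,5),(10,8),(13,9)]) (V 38))) (V 10))))))
) (N 12 (V 30) (V 52))))) (V 36))) (N 4 (N 6 (N 10 (N 11 (V 46) (N 13 (N 12 (V 52) (V 1)) (N 12 
(N 14 (N 16 (N 17 (N 15 (N 8 (V 50) (N 3 (V 28) (V 29))) (V 43)) (N 15 (N 8 (V 50) (V 29)) (N 8 (N 3
 (V 6) (N 9 (L [(0,7),(1,12),(2,7),(4,7),(7,7),(26,7),(29,7)]) (V 32))) (V 10)))) (N 17 (N 15 (N 8 
(V 50) (N 3 (N 9 (L [(0,8),(1,11),(2,11),(4,7),(7,7),(11,5),(29,5)]) (V 11)) (V 27))) (V 43)) (N 15 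
(N 8 (V 50) (V 29)) (N 8 (V 28) (V 0))))) (N 16 (V 52) (N 17 (N 15 (N 8 (N 3 (N 9 
(L [(0,8),(1,14),(2,8),(4,7),(7,7),(26,5),(29,5)]) (V 11)) (V 53)) (V 10)) (V 43)) (N 15 (N 8 (N 3 
(N 9 (V 47) (L [(0,11),(1,11),(2,8),(4,7),(7,7),(11,5),(26,5)])) (V 53)) (V 10)) (N 8 (V 53) (V 9)))
))) (V 49)))) (N 11 (V 0) (V 43))) (N 10 (N 11 (N 13 (N 12 (N 14 (N 16 (V 25) (V 34)) (N 16 (N 17 
(N 15 (V 26) (N 8 (N 3 (N 9 (L [(0,11),(1,10),(2,14),(7,9),(11,10)]) (V 2)) (V 31)) (V 28))) (N 15 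
(V 19) (V 29))) (V 28))) (V 30)) (N 12 (V 16) (N 14 (N 16 (N 17 (N 15 (V 29) (V 8)) (N 15 (N 8 (N 3 
(V 6) (N 9 (L [(0,12),(1,12),(2,12),(7,10),(14,8)]) (V 2))) (V 10)) (V 26))) (V 5)) (N 16 (V 21) 
(N 17 (N 15 (V 29) (V 8)) (N 15 (N 8 (V 17) (N 3 (V 18) (N 9 (V 38) 
(L [(0,8),(1,11),(2,16),(7,11),(14,8)])))) (V 26))))))) (V 36)) (N 11 (V 0) (N 13 (N 12 (N 14 (N 16 
(V 28) (N 17 (N 15 (N 8 (V 10) (N 3 (V 6) (N 9 (V 2) (L [(0,11),(1,14),(2,11),(7,12),(14,6)])))) 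
(V 31)) (N 15 (V 5) (N 8 (N 3 (V 27) (N 9 (L [(0,7),(1,13),(2,15),(7,13),(14,6)]) (V 41))) (V 17))))
) (N 16 (V 8) (V 25))) (V 30)) (N 12 (V 16) (N 14 (N 16 (V 25) (V 40)) (N 16 (N 17 (N 15 (V 26) (N 8
 (V 29) (N 3 (N 9 (V 2) (L [(0,10),(1,10),(2,15),(7,9),(11,10)])) (V 42)))) (N 15 (N 8 (V 14) (N 3 
(V 6) (N 9 (L [(0,14),(1,13),(2,12),(7,9),(25,6)]) (V 23)))) (V 29))) (V 28)))))))) (N 6 (V 21) 
(N 10 (N 11 (N 13 (N 12 (V 49) (N 14 (N 16 (N 17 (N 15 (V 29) (V 49)) (N 15 (N 8 (N 3 (N 9 (V 11) 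
(L [(0,9),(1,8),(2,8),(4,9),(7,10),(11,5),(28,5)])) (V 27)) (V 10)) (V 26))) (N 17 (N 15 (V 29) 
(V 17)) (N 15 (N 8 (V 28) (N 3 (V 18) (V 50))) (V 26)))) (N 16 (V 7) (N 17 (N 15 (V 29) (V 49)) 
(N 15 (N 8 (V 17) (V 29)) (V 26)))))) (N 12 (V 16) (V 52))) (V 22)) (N 11 (V 9) (N 13 (N 12 (V 49) 
(N 14 (N 16 (V 25) (V 52)) (N 16 (N 17 (N 15 (N 8 (V 14) (V 28)) (N 8 (V 29) (N 3 (V 53) (V 15)))) 
(N 15 (V 5) (N 8 (N 3 (V 27) (N 9 (V 11) (L [(0,7),(1,8),(2,10),(4,10),(7,9),(10,5),(28,5)]))) 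
(V 10)))) (V 28)))) (N 12 (V 16) (V 52)))))))) (N 2 (V 33) (N 4 (N 6 (N 10 (N 11 (V 46) (N 13 (N 12 
(V 52) (V 1)) (N 12 (N 14 (N 16 (N 17 (N 15 (N 8 (V 50) (V 9)) (N 8 (V 29) (V 0))) (N 15 (V 49) (N 8
 (N 3 (N 9 (L [(0,12),(1,7),(2,7),(4,7),(7,7),(26,7),(29,7)]) (V 35)) (V 6)) (V 10)))) (V 46)) (N 16
 (N 17 (N 15 (N 8 (N 3 (V 50) (N 9 (V 44) (L [(0,11),(1,8),(2,11),(4,7),(7,7),(10,5),(26,5)]))) 
(V 10)) (N 8 (V 53) (V 28))) (N 15 (V 49) (N 8 (V 53) (V 28)))) (N 17 (N 15 (N 8 (N 3 (V 50) (N 9 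
(L [(0,14),(1,8),(2,8),(4,7),(7,7),(26,5),(29,5)]) (V 11))) (V 10)) (N 8 (V 53) (N 3 (V 27) (N 9 
(L [(0,11),(1,11),(2,8),(4,7),(7,7),(10,5),(29,5)]) (V 11))))) (N 15 (V 49) (N 8 (V 53) (N 3 (V 28) 
(V 29))))))) (V 49)))) (N 11 (V 0) (V 43))) (V 15)) (N 6 (N 10 (N 11 (N 13 (N 12 (N 14 (N 16 (V 28) 
(N 17 (N 15 (V 29) (V 13)) (N 15 (N 8 (N 3 (V 19) (N 9 (L [(0,10),(1,11),(2,14),(4,9),(10,10)]) 
(V 2))) (V 29)) (V 26)))) (N 16 (V 40) (V 25))) (V 1)) (N 12 (V 30) (N 14 (N 16 (V 25) (V 5)) (N 16 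
(N 17 (N 15 (N 8 (V 17) (N 3 (N 9 (V 41) (L [(0,14),(1,11),(2,11),(4,12),(13,6)])) (V 6))) (V 8)) 
(N 15 (V 37) (N 8 (N 3 (N 9 (L [(0,13),(1,7),(2,15),(4,13),(13,6)]) (V 2)) (V 39)) (V 28)))) (V 28))
))) (V 22)) (N 11 (V 36) (N 13 (N 12 (N 14 (N 16 (N 17 (N 15 (V 26) (N 8 (N 3 (N 9 
(L [(0,12),(1,12),(2,12),(4,10),(13,8)]) (V 38)) (V 6)) (V 17))) (N 15 (V 5) (V 29))) (V 15)) (N 16 
(V 8) (N 17 (N 15 (V 26) (N 8 (V 29) (N 3 (N 9 (V 2) (L [(0,11),(1,8),(2,16),(4,11),(13,8)])) (V 39)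
))) (N 15 (V 5) (V 29))))) (V 1)) (N 12 (V 30) (N 14 (N 16 (V 28) (N 17 (N 15 (V 29) (N 8 (N 3 (N 9 
(V 20) (L [(0,13),(1,14),(2,12),(4,9),(26,6)])) (V 6)) (V 17))) (N 15 (N 8 (V 28) (N 3 (V 19) (N 9 
(V 2) (L [(0,10),(1,10),(2,15),(4,9),(10,10)])))) (V 26)))) (N 16 (V 34) (V 25))))))) (N 10 (N 11 
(V 43) (V 22)) (N 11 (N 13 (N 12 (N 14 (N 16 (N 17 (N 15 (V 26) (N 8 (V 10) (N 3 (V 27) (N 9 
(L [(0,8),(1,9),(2,8),(4,10),(7,9),(10,5),(25,5)]) (V 48))))) (N 15 (V 43) (V 29))) (V 4)) (N 16 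
(N 17 (N 15 (V 26) (N 8 (V 29) (V 50))) (N 15 (V 23) (V 29))) (N 17 (N 15 (V 26) (N 8 (V 29) (V 50))
) (N 15 (V 43) (V 29))))) (V 9)) (N 12 (V 16) (N 14 (N 16 (V 28) (N 17 (N 15 (N 8 (V 28) (V 53)) 
(V 8)) (N 15 (N 8 (V 28) (V 53)) (N 8 (V 10) (N 3 (N 9 
(L [(0,8),(1,7),(2,10),(4,9),(7,10),(11,5),(25,5)]) (V 51)) (V 27)))))) (N 16 (V 46) (V 25))))) 
(V 46))))))))))

lemma cert_ok : chk cert 0 0 = true := by decide +kernel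

lemma key (ρ : CellularEmbedding Gr) :
    (∃ d : Gr.Dart, ρ.perimeter.SameCycle d d.symm) ∨ ρ.numRegions ≤ 8 := by
  apply good_concl
  apply chk_sound cert 0 0 _ cert_ok
  intro v hv
  unfold bt at hv
  simp at hv

/-- There is a simple connected bridgeless cubic graph, even a cyclically 5-edge-connected one of
genus 1, such that in every embedding of it in the orientable surface of its genus some region
has a perimeter that traverses an edge twice (both darts `d` and `d.symm` of an edge lie on the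
perimeter of one region). -/
theorem result : ∃ G : SimpleGraph (Fin 18),
    G.Connected ∧ (∀ v, (G.neighborSet v).ncard = 3) ∧ (∀ e ∈ G.edgeSet, ¬ G.IsBridge e) ∧
    CyclicallyEdgeConnected G 5 ∧ genus G = 1 ∧
    ∀ ρ : CellularEmbedding G, ρ.InSurface (genus G) →
      ∃ d : G.Dart, ρ.perimeter.SameCycle d d.symm := by
  refine ⟨Gr, conn, degree_three, no_bridge, cyc5, genus_eq, ?_⟩
  intro ρ hρ
  rcases key ρ with h | h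
  · exact h
  · exfalso
    rw [genus_eq] at hρ
    unfold CellularEmbedding.InSurface at hρ
    rw [card_edges, Nat.card_fin] at hρ
    omega

end Pool.Agent.Results.MP_f8ee93_co.CyclicFive
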